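import Pool.Agent.Helper37K9.CO.Defs

set_option autoImplicit false

namespace Pool.Agent.Helper37K9.CO

open MvPolynomial

variable {K : Type} [Field K] {W : Type} [AddCommGroup W] [Module K W] {k : ℕ}

theorem val_C (m : Fin k → W) (a : K) : val m (C a : Pol K W k) = a := eval_C _

theorem val_add (m : Fin k → W) (p q : Pol K W k) : val m (p + q) = val m p + val m q :=
  map_add _ _ _

theorem val_sub (m : Fin k → W) (p q : Pol K W k) : val m (p - q) = val m p - val m q :=
  map_sub _ _ _

theorem val_mul (m : Fin k → W) (p q : Pol K W k) : val m (p * q) = val m p * val m q :=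
  map_mul _ _ _

theorem val_pow (m : Fin k → W) (p : Pol K W k) (n : ℕ) : val m (p ^ n) = val m p ^ n :=
  map_pow _ _ _

theorem val_X (m : Fin k → W) (x : Fin k × Module.Dual K W) :
    val m (X x : Pol K W k) = x.2 (m x.1) := eval_X _

theorem dif_C (m m' : Fin k → W) (a : K) : dif m m' (C a : Pol K W k) = 0 := by
  unfold dif
  rw [← algebraMap_eq, Derivation.map_algebraMap]
  exact map_zero _

theorem dif_add (m m' : Fin k → W) (p q : Pol K W k) :
    dif m m' (p + q) = dif m m' p + dif m m' q := by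
  unfold dif
  rw [map_add, val_add]

theorem dif_sub (m m' : Fin k → W) (p q : Pol K W k) :
    dif m m' (p - q) = dif m m' p - dif m m' q := by
  unfold dif
  rw [map_sub, val_sub]

theorem dif_mul (m m' : Fin k → W) (p q : Pol K W k) :
    dif m m' (p * q) = val m p * dif m m' q + val m q * dif m m' p := by
  unfold dif
  rw [Derivation.leibniz, smul_eq_mul, smul_eq_mul, val_add, val_mul, val_mul]

theorem dif_X (m m' : Fin k → W) (x : Fin k × Module.Dual K W) :
    dif m m' (X x : Pol K W k) = x.2 (m' x.1) := by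
  unfold dif
  rw [mkDerivation_X, val_C]

theorem dif_add_right (m m₁ m₂ : Fin k → W) (F : Pol K W k) :
    dif m (m₁ + m₂) F = dif m m₁ F + dif m m₂ F := by
  induction F using MvPolynomial.induction_on with
  | C a => rw [dif_C, dif_C, dif_C, add_zero]
  | add p q hp hq => rw [dif_add, dif_add, dif_add, hp, hq]; ring
  | mul_X p x hp =>
    rw [dif_mul, dif_mul, dif_mul, hp, dif_X, dif_X, dif_X, Pi.add_apply, map_add]; ring

theorem dif_smul_right (m m₁ : Fin k → W) (c : K) (F : Pol K W k) :
    dif m (c • m₁) F = c * dif m m₁ F := by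
  induction F using MvPolynomial.induction_on with
  | C a => rw [dif_C, dif_C, mul_zero]
  | add p q hp hq => rw [dif_add, dif_add, hp, hq]; ring
  | mul_X p x hp =>
    rw [dif_mul, dif_mul, hp, dif_X, dif_X, Pi.smul_apply, map_smul, smul_eq_mul]; ring

/-- the differential of `F` at `m` -/
noncomputable def dl (m : Fin k → W) (F : Pol K W k) : (Fin k → W) →ₗ[K] K where
  toFun m' := dif m m' F
  map_add' a b := dif_add_right m a b F
  map_smul' c a := dif_smul_right m a c F

theorem dl_apply (m m' : Fin k → W) (F : Pol K W k) : dl m F m' = dif m m' F := rfl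

/-- Taylor expansion of first order. -/
theorem taylor₁ (m u v w : Fin k → W) (F : Pol K W k) : ∃ R : Polynomial K, ∀ τ : K,
    val (m + τ • u + τ ^ 2 • v + τ ^ 3 • w) F = val m F + τ * dif m u F + τ ^ 2 * R.eval τ := by
  induction F using MvPolynomial.induction_on with
  | C a => exact ⟨0, fun τ => by rw [val_C, val_C, dif_C, Polynomial.eval_zero]; ring⟩
  | add p q hp hq =>
    obtain ⟨R, hR⟩ := hp
    obtain ⟨S, hS⟩ := hq
    exact ⟨R + S, fun τ => by
      rw [val_add, val_add, dif_add, hR, hS, Polynomial.eval_add]; ring⟩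
  | mul_X p x hp =>
    obtain ⟨R, hR⟩ := hp
    refine ⟨R * (Polynomial.C (x.2 (m x.1)) + Polynomial.X * Polynomial.C (x.2 (u x.1)) +
        Polynomial.X ^ 2 * Polynomial.C (x.2 (v x.1)) + Polynomial.X ^ 3 * Polynomial.C (x.2 (w x.1))) +
      Polynomial.C (dif m u p) * (Polynomial.C (x.2 (u x.1)) +
        Polynomial.X * Polynomial.C (x.2 (v x.1)) + Polynomial.X ^ 2 * Polynomial.C (x.2 (w x.1))) +
      Polynomial.C (val m p) * (Polynomial.C (x.2 (v x.1)) +
        Polynomial.X * Polynomial.C (x.2 (w x.1))), fun τ => ?_⟩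
    rw [val_mul, val_mul, dif_mul, hR, val_X, val_X, dif_X]
    simp only [Pi.add_apply, Pi.smul_apply, map_add, map_smul, smul_eq_mul, Polynomial.eval_add,
      Polynomial.eval_mul, Polynomial.eval_C, Polynomial.eval_X, Polynomial.eval_pow]
    ring

/-- Taylor expansion along a cuspidal curve. -/
theorem taylor₂ (m v w : Fin k → W) (F : Pol K W k) : ∃ R : Polynomial K, ∀ τ : K,
    val (m + τ ^ 2 • v + τ ^ 3 • w) F =
      val m F + τ ^ 2 * dif m v F + τ ^ 3 * dif m w F + τ ^ 4 * R.eval τ := by
  induction F using MvPolynomial.induction_on with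
  | C a => exact ⟨0, fun τ => by rw [val_C, val_C, dif_C, dif_C, Polynomial.eval_zero]; ring⟩
  | add p q hp hq =>
    obtain ⟨R, hR⟩ := hp
    obtain ⟨S, hS⟩ := hq
    exact ⟨R + S, fun τ => by
      rw [val_add, val_add, dif_add, dif_add, hR, hS, Polynomial.eval_add]; ring⟩
  | mul_X p x hp =>
    obtain ⟨R, hR⟩ := hp
    refine ⟨R * (Polynomial.C (x.2 (m x.1)) +
        Polynomial.X ^ 2 * Polynomial.C (x.2 (v x.1)) + Polynomial.X ^ 3 * Polynomial.C (x.2 (w x.1))) +
      (Polynomial.C (dif m v p) + Polynomial.X * Polynomial.C (dif m w p)) *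
        (Polynomial.C (x.2 (v x.1)) + Polynomial.X * Polynomial.C (x.2 (w x.1))), fun τ => ?_⟩
    rw [val_mul, val_mul, dif_mul, dif_mul, hR, val_X, val_X, dif_X, dif_X]
    simp only [Pi.add_apply, Pi.smul_apply, map_add, map_smul, smul_eq_mul, Polynomial.eval_add,
      Polynomial.eval_mul, Polynomial.eval_C, Polynomial.eval_X, Polynomial.eval_pow]
    ring

/-- a polynomial function of one variable which is zero everywhere is zero -/
theorem poly_zero [Infinite K] {p : Polynomial K} (h : ∀ τ, p.eval τ = 0) : p = 0 :=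
  Polynomial.funext fun τ => by rw [h, Polynomial.eval_zero]

/-! ### Change of the basis -/

/-- the vectors `∑ j, g i j • m j` -/
def act (g : Matrix (Fin k) (Fin k) K) (m : Fin k → W) : Fin k → W := fun i => ∑ j, g i j • m j

theorem act_mul (g h : Matrix (Fin k) (Fin k) K) (m : Fin k → W) :
    act (g * h) m = act g (act h m) := by
  funext i
  simp only [act, Matrix.mul_apply, Finset.sum_smul, Finset.smul_sum, smul_smul]
  exact Finset.sum_comm

theorem act_one (m : Fin k → W) : act (1 : Matrix (Fin k) (Fin k) K) m = m := by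
  funext i
  simp only [act, Matrix.one_apply, ite_smul, one_smul, zero_smul]
  rw [Finset.sum_ite_eq Finset.univ i, if_pos (Finset.mem_univ i)]

theorem act_add (g : Matrix (Fin k) (Fin k) K) (m m' : Fin k → W) :
    act g (m + m') = act g m + act g m' := by
  funext i
  simp only [act, Pi.add_apply, smul_add, Finset.sum_add_distrib]

theorem act_smul (g : Matrix (Fin k) (Fin k) K) (c : K) (m : Fin k → W) :
    act g (c • m) = c • act g m := by
  funext i
  simp only [act, Pi.smul_apply, Finset.smul_sum]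
  exact Finset.sum_congr rfl fun j _ => smul_comm _ _ _

theorem act_map (g : Matrix (Fin k) (Fin k) K) (Φ : W →ₗ[K] W) (m : Fin k → W) :
    act g (fun i => Φ (m i)) = fun i => Φ (act g m i) := by
  funext i
  simp only [act, map_sum, map_smul]

theorem exists_act {m m' : Fin k → W} (h : ∀ i, m' i ∈ Submodule.span K (Set.range m)) :
    ∃ g : Matrix (Fin k) (Fin k) K, m' = act g m := by
  have h1 : ∀ i, ∃ c : Fin k → K, ∑ j, c j • m j = m' i := fun i =>
    (Submodule.mem_span_range_iff_exists_fun K).1 (h i)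
  choose g hg using h1
  exact ⟨g, funext fun i => (hg i).symm⟩

theorem act_inj {m : Fin k → W} (h : LinearIndependent K m) {g g' : Matrix (Fin k) (Fin k) K}
    (hg : act g m = act g' m) : g = g' := by
  ext i j
  have h1 : ∑ j, (g i j - g' i j) • m j = 0 := by
    have := congrFun hg i
    simp only [act] at this
    simp only [sub_smul, Finset.sum_sub_distrib]
    rw [this, sub_self]
  exact sub_eq_zero.1 (Fintype.linearIndependent_iff.1 h (fun j => g i j - g' i j) h1 j)

theorem exists_gl {m m' : Fin k → W} {L : Submodule K W} (h : IsBas m L) (h' : IsBas m' L) :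
    ∃ g g' : Matrix (Fin k) (Fin k) K, m' = act g m ∧ m = act g' m' ∧ g * g' = 1 ∧ g' * g = 1 := by
  obtain ⟨g, hg⟩ := exists_act (m := m) (m' := m') fun i => by
    rw [h.2, ← h'.2]; exact Submodule.subset_span ⟨i, rfl⟩
  obtain ⟨g', hg'⟩ := exists_act (m := m') (m' := m) fun i => by
    rw [h'.2, ← h.2]; exact Submodule.subset_span ⟨i, rfl⟩
  refine ⟨g, g', hg, hg', act_inj h'.1 ?_, act_inj h.1 ?_⟩
  · rw [act_mul, ← hg', ← hg, act_one]
  · rw [act_mul, ← hg, ← hg', act_one]

theorem act_bas {m : Fin k → W} (h : LinearIndependent K m) {g g' : Matrix (Fin k) (Fin k) K}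
    (h1 : g * g' = 1) (h2 : g' * g = 1) : IsBas (act g m) (Submodule.span K (Set.range m)) := by
  have h3 : Submodule.span K (Set.range (act g m)) = Submodule.span K (Set.range m) := by
    refine le_antisymm (Submodule.span_le.2 ?_) (Submodule.span_le.2 ?_)
    · rintro _ ⟨i, rfl⟩
      exact Submodule.sum_mem _ fun j _ => Submodule.smul_mem _ _ (Submodule.subset_span ⟨j, rfl⟩)
    · rintro _ ⟨i, rfl⟩
      have h4 : m i = act g' (act g m) i := by rw [← act_mul, h2, act_one]
      rw [h4]
      exact Submodule.sum_mem _ fun j _ => Submodule.smul_mem _ _ (Submodule.subset_span ⟨j, rfl⟩)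
  refine ⟨Fintype.linearIndependent_iff.2 fun c hc => ?_, h3⟩
  have h4 : ∑ j, (Matrix.vecMul c g) j • m j = 0 := by
    rw [← hc]
    simp only [act, Matrix.vecMul, dotProduct, Finset.sum_smul, Finset.smul_sum, smul_smul]
    exact Finset.sum_comm
  have h5 : Matrix.vecMul c g = 0 := funext fun j => Fintype.linearIndependent_iff.1 h _ h4 j
  have h6 : c = 0 := by
    rw [← Matrix.vecMul_one c, ← h1, ← Matrix.vecMul_vecMul, h5, Matrix.zero_vecMul]
  exact fun i => congrFun h6 i

/-- the polynomial `m ↦ F (g m)` -/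
noncomputable def sub' (g : Matrix (Fin k) (Fin k) K) (F : Pol K W k) : Pol K W k :=
  aeval (fun x : Fin k × Module.Dual K W => ∑ j, C (g x.1 j) * X (j, x.2)) F

theorem val_sub' (g : Matrix (Fin k) (Fin k) K) (m : Fin k → W) (F : Pol K W k) :
    val m (sub' g F) = val (act g m) F := by
  induction F using MvPolynomial.induction_on with
  | C a =>
    rw [sub', ← algebraMap_eq, AlgHom.commutes, algebraMap_eq, val_C, val_C]
  | add p q hp hq => rw [val_add, ← hp, ← hq, ← val_add]; rw [sub', map_add]; rfl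
  | mul_X p x hp =>
    rw [val_mul, ← hp, val_X, sub', map_mul, aeval_X, val_mul]
    congr 1
    simp only [val, map_sum, map_mul, eval_C, eval_X, act, map_smul, smul_eq_mul]

theorem dif_sub' (g : Matrix (Fin k) (Fin k) K) (m m' : Fin k → W) (F : Pol K W k) :
    dif m m' (sub' g F) = dif (act g m) (act g m') F := by
  induction F using MvPolynomial.induction_on with
  | C a =>
    rw [sub', ← algebraMap_eq, AlgHom.commutes, algebraMap_eq, dif_C, dif_C]
  | add p q hp hq => rw [dif_add, ← hp, ← hq, ← dif_add]; rw [sub', map_add]; rfl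
  | mul_X p x hp =>
    have h1 : sub' g (p * X x) = sub' g p * ∑ j, C (g x.1 j) * X (j, x.2) := by
      rw [sub', map_mul, aeval_X]; rfl
    have h2 : ∀ s : Finset (Fin k), dif m m' (∑ j ∈ s, (C (g x.1 j) * X (j, x.2) : Pol K W k)) =
        ∑ j ∈ s, g x.1 j * x.2 (m' j) := by
      intro s
      induction s using Finset.induction_on with
      | empty => rw [Finset.sum_empty, Finset.sum_empty, ← C_0, dif_C]
      | insert a s ha ih =>
        rw [Finset.sum_insert ha, Finset.sum_insert ha, dif_add, ih, dif_mul, dif_C, dif_X, val_C,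
          mul_zero, add_zero]
    rw [h1, dif_mul, dif_mul, hp, val_sub', dif_X, h2, val_X]
    simp only [act, map_sum, map_smul, smul_eq_mul, val, eval_C, eval_X, map_mul]

theorem van_sub' {g g' : Matrix (Fin k) (Fin k) K} (h1 : g * g' = 1) (h2 : g' * g = 1)
    {F : Pol K W k} {L : Submodule K W} (hF : Van F L) : Van (sub' g F) L := by
  intro m hm
  rw [val_sub']
  refine hF _ ?_
  have := act_bas hm.1 h1 h2
  rwa [hm.2] at this

theorem ideal_sub' {g g' : Matrix (Fin k) (Fin k) K} (h1 : g * g' = 1) (h2 : g' * g = 1)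
    {F : Pol K W k} {Z : Set (Submodule K W)} (hF : F ∈ Ideal' k Z) : sub' g F ∈ Ideal' k Z :=
  fun L hL => van_sub' h1 h2 (hF L hL)

/-- tangent vectors can be tested at one basis -/
theorem mem_tan {Z : Set (Submodule K W)} {L : Submodule K W} {m : Fin k → W} (hm : IsBas m L)
    {Φ : W →ₗ[K] W} (h : ∀ F ∈ Ideal' k Z, dif m (fun i => Φ (m i)) F = 0) : Φ ∈ Tan k Z L := by
  intro F hF m' hm'
  obtain ⟨g, g', hg, -, h1, h2⟩ := exists_gl hm hm'
  have h3 := h _ (ideal_sub' h1 h2 hF)
  rw [dif_sub', act_map, ← hg] at h3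
  exact h3

/-- the first order terms of curves are tangent vectors -/
theorem mem_tan_of_curve [Infinite K] {Z : Set (Submodule K W)} {L : Submodule K W} {m : Fin k → W}
    (hm : IsBas m L) {Φ : W →ₗ[K] W} (v w : Fin k → W)
    (h : ∀ τ : K, ∃ L' ∈ Z, IsBas (m + τ • (fun i => Φ (m i)) + τ ^ 2 • v + τ ^ 3 • w) L') :
    Φ ∈ Tan k Z L := by
  refine mem_tan hm fun F hF => ?_
  obtain ⟨R, hR⟩ := taylor₁ m (fun i => Φ (m i)) v w F
  have h1 : ∀ τ : K, val m F + τ * dif m (fun i => Φ (m i)) F + τ ^ 2 * R.eval τ = 0 := by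
    intro τ
    obtain ⟨L', hL', hb⟩ := h τ
    rw [← hR]
    exact hF L' hL' _ hb
  have h2 : Polynomial.C (val m F) + Polynomial.X * Polynomial.C (dif m (fun i => Φ (m i)) F) +
      Polynomial.X ^ 2 * R = 0 := poly_zero fun τ => by
    rw [← h1 τ]; simp; ring
  have h3 := congrArg (fun p => Polynomial.coeff p 1) h2
  simpa [Polynomial.coeff_X_pow_mul', Polynomial.coeff_C] using h3

/-- the second and the third order terms of cuspidal curves are tangent vectors -/
theorem mem_tan_of_cusp [Infinite K] {Z : Set (Submodule K W)} {L : Submodule K W} {m : Fin k → W}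
    (hm : IsBas m L) {Φ Φ' : W →ₗ[K] W}
    (h : ∀ τ : K, ∃ L' ∈ Z, IsBas (m + τ ^ 2 • (fun i => Φ (m i)) + τ ^ 3 • fun i => Φ' (m i)) L') :
    Φ ∈ Tan k Z L ∧ Φ' ∈ Tan k Z L := by
  have key : ∀ F ∈ Ideal' k Z, dif m (fun i => Φ (m i)) F = 0 ∧ dif m (fun i => Φ' (m i)) F = 0 := by
    intro F hF
    obtain ⟨R, hR⟩ := taylor₂ m (fun i => Φ (m i)) (fun i => Φ' (m i)) F
    have h1 : ∀ τ : K, val m F + τ ^ 2 * dif m (fun i => Φ (m i)) F +
        τ ^ 3 * dif m (fun i => Φ' (m i)) F + τ ^ 4 * R.eval τ = 0 := by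
      intro τ
      obtain ⟨L', hL', hb⟩ := h τ
      rw [← hR]
      exact hF L' hL' _ hb
    have h2 : Polynomial.C (val m F) +
        Polynomial.X ^ 2 * Polynomial.C (dif m (fun i => Φ (m i)) F) +
        Polynomial.X ^ 3 * Polynomial.C (dif m (fun i => Φ' (m i)) F) +
        Polynomial.X ^ 4 * R = 0 := poly_zero fun τ => by
      rw [← h1 τ]; simp; ring
    have h3 := congrArg (fun p => Polynomial.coeff p 2) h2
    have h4 := congrArg (fun p => Polynomial.coeff p 3) h2
    constructor
    · simpa [Polynomial.coeff_X_pow_mul', Polynomial.coeff_C] using h3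
    · simpa [Polynomial.coeff_X_pow_mul', Polynomial.coeff_C] using h4
  exact ⟨mem_tan hm fun F hF => (key F hF).1, mem_tan hm fun F hF => (key F hF).2⟩

/-- the differential of a polynomial which vanishes at `L` is zero in the directions in `L` -/
theorem dif_vert [Infinite K] {F : Pol K W k} {L : Submodule K W} (hF : Van F L) {m : Fin k → W}
    (hm : IsBas m L) (m' : Fin k → W) (h : ∀ i, m' i ∈ L) : dif m m' F = 0 := by
  obtain ⟨g, hg⟩ := exists_act (m := m) (m' := m') fun i => by rw [hm.2]; exact h i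
  obtain ⟨R, hR⟩ := taylor₁ m m' 0 0 F
  -- the characteristic polynomial of `-g`, `det (1 + τ g)`
  let D : Polynomial K := (1 + (Polynomial.X : Polynomial K) • g.map (fun a => Polynomial.C a) :
    Matrix (Fin k) (Fin k) (Polynomial K)).det
  have hD : ∀ τ : K, D.eval τ = (1 + τ • g).det := by
    intro τ
    have : D.eval τ = (Polynomial.evalRingHom τ) D := rfl
    rw [this, RingHom.map_det]
    congr 1
    ext i j
    simp [Matrix.one_apply, Matrix.map_apply, apply_ite]
    ring
  have hD0 : D ≠ 0 := by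
    intro h0
    have := hD 0
    rw [h0, Polynomial.eval_zero, zero_smul, add_zero, Matrix.det_one] at this
    exact zero_ne_one this
  have h1 : ∀ τ : K, (1 + τ • g).det * (τ * dif m m' F + τ ^ 2 * R.eval τ) = 0 := by
    intro τ
    rcases eq_or_ne ((1 + τ • g).det) 0 with h0 | h0
    · rw [h0, zero_mul]
    · have hu : IsUnit (1 + τ • g).det := isUnit_iff_ne_zero.2 h0
      have h2 := act_bas (W := W) hm.1 (Matrix.mul_nonsing_inv _ hu) (Matrix.nonsing_inv_mul _ hu)
      rw [hm.2] at h2
      have h3 := hF _ h2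
      have h4 : act (1 + τ • g) m = m + τ • m' + τ ^ 2 • (0 : Fin k → W) + τ ^ 3 • (0 : Fin k → W) := by
        rw [hg, smul_zero, smul_zero, add_zero, add_zero]
        funext i
        simp only [act, Matrix.add_apply, add_smul, Finset.sum_add_distrib, Pi.add_apply,
          Pi.smul_apply, Finset.smul_sum, Matrix.smul_apply, smul_assoc]
        congr 1
        simp only [Matrix.one_apply, ite_smul, one_smul, zero_smul]
        rw [Finset.sum_ite_eq Finset.univ i, if_pos (Finset.mem_univ i)]
      rw [h4, hR, hF m hm] at h3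
      rw [show τ * dif m m' F + τ ^ 2 * R.eval τ = 0 + τ * dif m m' F + τ ^ 2 * R.eval τ by ring, h3,
        mul_zero]
  have h2 : D * (Polynomial.X * Polynomial.C (dif m m' F) + Polynomial.X ^ 2 * R) = 0 :=
    poly_zero fun τ => by
      rw [← h1 τ, ← hD]
      simp only [Polynomial.eval_mul, Polynomial.eval_add, Polynomial.eval_X, Polynomial.eval_C,
        Polynomial.eval_pow]
  have h3 := (mul_eq_zero.1 h2).resolve_left hD0
  have h4 := congrArg (fun p => Polynomial.coeff p 1) h3
  simpa [Polynomial.coeff_X_pow_mul'] using h4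

end Pool.Agent.Helper37K9.CO
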