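import Pool.Agent.Helper37K9.CO.Base

set_option autoImplicit false

namespace Pool.Agent.Helper37K9.CO

open MvPolynomial

variable {K : Type} [Field K] {W : Type} [AddCommGroup W] [Module K W] {k : ℕ}

theorem IsBas.finrank_eq {m : Fin k → W} {L : Submodule K W} (h : IsBas m L) :
    Module.finrank K L = k := by
  have h1 := finrank_span_eq_card h.1
  rwa [h.2, Fintype.card_fin] at h1

theorem subset_cl {Z : Set (Submodule K W)} (h : ∀ L ∈ Z, Module.finrank K L = k) : Z ⊆ cl k Z :=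
  fun L hL => ⟨h L hL, fun _ hF => hF L hL⟩

theorem ideal_anti {Z Z' : Set (Submodule K W)} (h : Z ⊆ Z') : Ideal' k Z' ⊆ Ideal' k Z :=
  fun _ hF L hL => hF L (h hL)

theorem cl_mono {Z Z' : Set (Submodule K W)} (h : Z ⊆ Z') : cl k Z ⊆ cl k Z' :=
  fun _ hL => ⟨hL.1, fun F hF => hL.2 F (ideal_anti h hF)⟩

theorem ideal_le {Z : Set (Submodule K W)} : Ideal' k Z ⊆ Ideal' k (cl k Z) :=
  fun F hF _ hL => hL.2 F hF

theorem cl_cl {Z : Set (Submodule K W)} (h : ∀ L ∈ Z, Module.finrank K L = k) :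
    cl k (cl k Z) = cl k Z :=
  le_antisymm (fun _ hL => ⟨hL.1, fun F hF => hL.2 F (ideal_le hF)⟩)
    (subset_cl fun _ hL => hL.1)

theorem van_of_bas {L : Submodule K W} {m : Fin k → W} (hm : IsBas m L)
    {Z : Set (Submodule K W)} (hL : L ∉ cl k Z) : ∃ F ∈ Ideal' k Z, val m F ≠ 0 := by
  by_contra hcon
  simp only [not_exists, not_and, ne_eq, not_not] at hcon
  refine hL ⟨hm.finrank_eq, fun F hF m' hm' => ?_⟩
  obtain ⟨g, g', hg, -, h1, h2⟩ := exists_gl hm hm'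
  rw [hg, ← val_sub']
  exact hcon _ (ideal_sub' h1 h2 hF)

/-- The closure of a polynomially parametrised family is irreducible. -/
theorem isVar_param [Infinite K] {σ : Type} {γ : (σ → K) → Fin k → W}
    (hli : ∀ t, LinearIndependent K (γ t)) (q : Fin k × Module.Dual K W → MvPolynomial σ K)
    (hq : ∀ t x, x.2 (γ t x.1) = eval t (q x)) {Z : Set (Submodule K W)}
    (hZ : ∀ L, L ∈ Z ↔ ∃ t, L = Submodule.span K (Set.range (γ t))) : IsVar k (cl k Z) := by
  have hbas : ∀ t, IsBas (γ t) (Submodule.span K (Set.range (γ t))) := fun t => ⟨hli t, rfl⟩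
  have hdim : ∀ L ∈ Z, Module.finrank K L = k := by
    intro L hL
    obtain ⟨t, rfl⟩ := (hZ L).1 hL
    exact (hbas t).finrank_eq
  have hval : ∀ (F : Pol K W k) (t : σ → K), val (γ t) F = eval t (aeval q F) := by
    intro F t
    induction F using MvPolynomial.induction_on with
    | C a => rw [val_C, ← algebraMap_eq, AlgHom.commutes, algebraMap_eq, eval_C]
    | add p q hp hq => rw [val_add, hp, hq, map_add, map_add]
    | mul_X p x hp => rw [val_mul, hp, val_X, hq, map_mul, map_mul, aeval_X]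
  refine ⟨cl_cl hdim, ⟨_, subset_cl hdim ((hZ _).2 ⟨0, rfl⟩)⟩, ?_⟩
  intro Z₁ Z₂ h1 h2 h12
  by_contra hcon
  rw [not_or] at hcon
  have key : ∀ Z' : Set (Submodule K W), cl k Z' = Z' → ¬ cl k Z ⊆ Z' →
      ∃ F ∈ Ideal' k Z', aeval q F ≠ 0 := by
    intro Z' hZ' hn
    have h3 : ¬ Z ⊆ Z' := fun h => hn (by rw [← hZ']; exact cl_mono h)
    rw [Set.not_subset] at h3
    obtain ⟨L, hL, hL'⟩ := h3
    obtain ⟨t, rfl⟩ := (hZ L).1 hL
    rw [← hZ'] at hL'
    obtain ⟨F, hF, hF0⟩ := van_of_bas (hbas t) hL'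
    refine ⟨F, hF, fun h0 => hF0 ?_⟩
    rw [hval, h0, map_zero]
  obtain ⟨F₁, hF₁, hn₁⟩ := key Z₁ h1 hcon.1
  obtain ⟨F₂, hF₂, hn₂⟩ := key Z₂ h2 hcon.2
  refine mul_ne_zero hn₁ hn₂ (MvPolynomial.funext fun t => ?_)
  rw [map_mul, map_zero, ← hval, ← hval]
  rcases h12 (subset_cl hdim ((hZ _).2 ⟨t, rfl⟩)) with h | h
  · rw [hF₁ _ h _ (hbas t), zero_mul]
  · rw [hF₂ _ h _ (hbas t), mul_zero]

/-- the same with coordinates -/
theorem isVar_coord [Infinite K] {σ : Type} {n : ℕ} {γ : (σ → K) → Fin k → Fin n → K}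
    (hli : ∀ t, LinearIndependent K (γ t)) (q : Fin k → Fin n → MvPolynomial σ K)
    (hq : ∀ t i j, γ t i j = eval t (q i j)) {Z : Set (Submodule K (Fin n → K))}
    (hZ : ∀ L, L ∈ Z ↔ ∃ t, L = Submodule.span K (Set.range (γ t))) : IsVar k (cl k Z) := by
  refine isVar_param hli (fun x => ∑ j, C (x.2 (Pi.single j 1)) * q x.1 j) ?_ hZ
  rintro t ⟨i, ξ⟩
  have h1 : ξ (γ t i) = ξ (∑ j, Pi.single j (γ t i j)) := by rw [Finset.univ_sum_single]
  rw [h1, map_sum, map_sum]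
  refine Finset.sum_congr rfl fun j _ => ?_
  have h2 : (Pi.single j (γ t i j) : Fin n → K) = γ t i j • Pi.single j 1 := by
    rw [← Pi.single_smul, smul_eq_mul, mul_one]
  rw [h2, map_smul, map_mul, eval_C, ← hq, smul_eq_mul, mul_comm]

end Pool.Agent.Helper37K9.CO
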