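import Pool.Agent.Helper37K9.CO.Semi
import Pool.Agent.Helper37K9.CO.Irr

set_option autoImplicit false

namespace Pool.Agent.Helper37K9.CO

open MvPolynomial

variable {K : Type} [Field K]

/-- the bases in the chart of `Gr(2, H)`, `H` the hyperplane `x₆ = 0` -/
def Ch (m : Fin 2 → Fin 7 → K) : Prop :=
  m 0 0 = 1 ∧ m 0 1 = 0 ∧ m 1 0 = 0 ∧ m 1 1 = 1 ∧ m 0 6 = 0 ∧ m 1 6 = 0

theorem Ch.li {m : Fin 2 → Fin 7 → K} (h : Ch m) : LinearIndependent K m := by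
  obtain ⟨h1, h2, h3, h4, -, -⟩ := h
  rw [Fintype.linearIndependent_iff]
  intro c hc
  rw [Fin.sum_univ_two] at hc
  have h5 := congrFun hc 0
  have h6 := congrFun hc 1
  simp only [Pi.add_apply, Pi.smul_apply, smul_eq_mul, h1, h2, h3, h4, Pi.zero_apply, mul_one,
    mul_zero, add_zero, zero_add] at h5 h6
  intro i
  fin_cases i
  · exact h5
  · exact h6

theorem Ch.bas {m : Fin 2 → Fin 7 → K} (h : Ch m) :
    IsBas m (Submodule.span K (Set.range m)) := ⟨h.li, rfl⟩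

theorem Ch.mem {m : Fin 2 → Fin 7 → K} (h : Ch m) {x : Fin 7 → K}
    (hx : x ∈ Submodule.span K (Set.range m)) : x = x 0 • m 0 + x 1 • m 1 := by
  obtain ⟨h1, h2, h3, h4, -, -⟩ := h
  obtain ⟨c, rfl⟩ := (Submodule.mem_span_range_iff_exists_fun K).1 hx
  rw [Fin.sum_univ_two]
  simp only [Pi.add_apply, Pi.smul_apply, smul_eq_mul, h1, h2, h3, h4, mul_one, mul_zero, add_zero,
    zero_add]

/-- the hypersurface of `Gr(2, H)` in the chart -/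
def Sig0 (K : Type) [Field K] : Set (Submodule K (Fin 7 → K)) :=
  {L | ∃ (m : Fin 2 → Fin 7 → K) (s : K), Ch m ∧ m 0 2 + m 1 3 = s ^ 3 ∧ m 0 4 + m 1 5 = s ^ 2 ∧
    L = Submodule.span K (Set.range m)}

/-- its singular locus in the chart -/
def S0 (K : Type) [Field K] : Set (Submodule K (Fin 7 → K)) :=
  {L | ∃ m : Fin 2 → Fin 7 → K, Ch m ∧ m 0 2 + m 1 3 = 0 ∧ m 0 4 + m 1 5 = 0 ∧
    L = Submodule.span K (Set.range m)}

theorem S0_sub : S0 K ⊆ Sig0 K := by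
  rintro L ⟨m, h, h1, h2, h3⟩
  exact ⟨m, 0, h, by rw [h1]; ring, by rw [h2]; ring, h3⟩

theorem Sig0_dim : ∀ L ∈ Sig0 K, Module.finrank K L = 2 := by
  rintro L ⟨m, s, h, -, -, rfl⟩
  exact h.bas.finrank_eq

theorem S0_dim : ∀ L ∈ S0 K, Module.finrank K L = 2 := fun L hL => Sig0_dim L (S0_sub hL)

/-- the variety -/
def Sig (K : Type) [Field K] : Set (Submodule K (Fin 7 → K)) := cl 2 (Sig0 K)

/-- the component of the singular locus -/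
def SS (K : Type) [Field K] : Set (Submodule K (Fin 7 → K)) := cl 2 (S0 K)

theorem Sig_var [Infinite K] : IsVar 2 (Sig K) := by
  have hch : ∀ t : Fin 7 → K, Ch (![![1, 0, t 0 ^ 3 - t 2, t 5, t 0 ^ 2 - t 4, t 6, 0],
      ![0, 1, t 1, t 2, t 3, t 4, 0]] : Fin 2 → Fin 7 → K) := fun t =>
    ⟨rfl, rfl, rfl, rfl, rfl, rfl⟩
  refine isVar_coord (γ := fun t : Fin 7 → K => ![![1, 0, t 0 ^ 3 - t 2, t 5, t 0 ^ 2 - t 4, t 6, 0],
      ![0, 1, t 1, t 2, t 3, t 4, 0]]) (fun t => (hch t).li)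
    ![![1, 0, X 0 ^ 3 - X 2, X 5, X 0 ^ 2 - X 4, X 6, 0], ![0, 1, X 1, X 2, X 3, X 4, 0]] ?_ ?_
  · intro t i j
    fin_cases i <;> fin_cases j <;> simp
  · intro L
    constructor
    · rintro ⟨m, s, h, h1, h2, rfl⟩
      refine ⟨![s, m 1 2, m 1 3, m 1 4, m 1 5, m 0 3, m 0 5], ?_⟩
      congr 2
      obtain ⟨g1, g2, g3, g4, g5, g6⟩ := h
      funext i j
      fin_cases i <;> fin_cases j
      · exact g1
      · exact g2
      · exact eq_sub_of_add_eq h1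
      · rfl
      · exact eq_sub_of_add_eq h2
      · rfl
      · exact g5
      · exact g3
      · exact g4
      · rfl
      · rfl
      · rfl
      · rfl
      · exact g6
    · rintro ⟨t, rfl⟩
      exact ⟨_, t 0, hch t, sub_add_cancel _ _, sub_add_cancel _ _, rfl⟩

theorem SS_var [Infinite K] : IsVar 2 (SS K) := by
  have hch : ∀ t : Fin 7 → K, Ch (![![1, 0, - t 2, t 5, - t 4, t 6, 0],
      ![0, 1, t 1, t 2, t 3, t 4, 0]] : Fin 2 → Fin 7 → K) := fun t =>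
    ⟨rfl, rfl, rfl, rfl, rfl, rfl⟩
  refine isVar_coord (γ := fun t : Fin 7 → K => ![![1, 0, - t 2, t 5, - t 4, t 6, 0],
      ![0, 1, t 1, t 2, t 3, t 4, 0]]) (fun t => (hch t).li)
    ![![1, 0, - X 2, X 5, - X 4, X 6, 0], ![0, 1, X 1, X 2, X 3, X 4, 0]] ?_ ?_
  · intro t i j
    fin_cases i <;> fin_cases j <;> simp
  · intro L
    constructor
    · rintro ⟨m, h, h1, h2, rfl⟩
      refine ⟨![0, m 1 2, m 1 3, m 1 4, m 1 5, m 0 3, m 0 5], ?_⟩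
      congr 2
      obtain ⟨g1, g2, g3, g4, g5, g6⟩ := h
      funext i j
      fin_cases i <;> fin_cases j
      · exact g1
      · exact g2
      · exact eq_neg_of_add_eq_zero_left h1
      · rfl
      · exact eq_neg_of_add_eq_zero_left h2
      · rfl
      · exact g5
      · exact g3
      · exact g4
      · rfl
      · rfl
      · rfl
      · rfl
      · exact g6
    · rintro ⟨t, rfl⟩
      exact ⟨_, hch t, neg_add_cancel _, neg_add_cancel _, rfl⟩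

/-! ### Tangent vectors -/

/-- the endomorphism `v ↦ v₀ x + v₁ y` -/
noncomputable def Ph (x y : Fin 7 → K) : (Fin 7 → K) →ₗ[K] (Fin 7 → K) :=
  (LinearMap.proj 0 : (Fin 7 → K) →ₗ[K] K).smulRight x +
    (LinearMap.proj 1 : (Fin 7 → K) →ₗ[K] K).smulRight y

theorem Ph_apply (x y v : Fin 7 → K) : Ph x y v = v 0 • x + v 1 • y := rfl

theorem Ph_ch {m : Fin 2 → Fin 7 → K} (h : Ch m) (x y : Fin 7 → K) :
    (fun i => Ph x y (m i)) = ![x, y] := by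
  obtain ⟨h1, h2, h3, h4, -, -⟩ := h
  funext i
  fin_cases i
  · change m 0 0 • x + m 0 1 • y = x
    rw [h1, h2, one_smul, zero_smul, add_zero]
  · change m 1 0 • x + m 1 1 • y = y
    rw [h3, h4, one_smul, zero_smul, zero_add]

theorem trace_Ph (Ψ : (Fin 7 → K) →ₗ[K] (Fin 7 → K)) (x y : Fin 7 → K) :
    LinearMap.trace K _ (Ψ ∘ₗ Ph x y) = Ψ x 0 + Ψ y 1 := by
  have h1 : Ψ ∘ₗ Ph x y = (LinearMap.proj 0 : (Fin 7 → K) →ₗ[K] K).smulRight (Ψ x) +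
      (LinearMap.proj 1 : (Fin 7 → K) →ₗ[K] K).smulRight (Ψ y) := by
    refine LinearMap.ext fun v => ?_
    rw [LinearMap.comp_apply, Ph_apply, map_add, map_smul, map_smul]
    rfl
  rw [h1, map_add, LinearMap.trace_smulRight, LinearMap.trace_smulRight]
  rfl

/-- vectors in the directions of the chart -/
def Dir (x : Fin 7 → K) : Prop := x 0 = 0 ∧ x 1 = 0 ∧ x 6 = 0

theorem Ch.add {m : Fin 2 → Fin 7 → K} (h : Ch m) {m' : Fin 2 → Fin 7 → K} (h0 : Dir (m' 0))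
    (h1 : Dir (m' 1)) : Ch (m + m') := by
  obtain ⟨g1, g2, g3, g4, g5, g6⟩ := h
  obtain ⟨a1, a2, a3⟩ := h0
  obtain ⟨b1, b2, b3⟩ := h1
  refine ⟨?_, ?_, ?_, ?_, ?_, ?_⟩
  · change m 0 0 + m' 0 0 = 1; rw [g1, a1, add_zero]
  · change m 0 1 + m' 0 1 = 0; rw [g2, a2, add_zero]
  · change m 1 0 + m' 1 0 = 0; rw [g3, b1, add_zero]
  · change m 1 1 + m' 1 1 = 1; rw [g4, b2, add_zero]
  · change m 0 6 + m' 0 6 = 0; rw [g5, a3, add_zero]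
  · change m 1 6 + m' 1 6 = 0; rw [g6, b3, add_zero]

theorem Dir.smul {x : Fin 7 → K} (h : Dir x) (c : K) : Dir (c • x) := by
  obtain ⟨h1, h2, h3⟩ := h
  refine ⟨?_, ?_, ?_⟩
  · change c * x 0 = 0; rw [h1, mul_zero]
  · change c * x 1 = 0; rw [h2, mul_zero]
  · change c * x 6 = 0; rw [h3, mul_zero]

theorem Dir.zero : Dir (0 : Fin 7 → K) := ⟨rfl, rfl, rfl⟩

theorem tan_line [Infinite K] {m : Fin 2 → Fin 7 → K} (h : Ch m) {s : K}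
    (h1 : m 0 2 + m 1 3 = s ^ 3) (h2 : m 0 4 + m 1 5 = s ^ 2) {x y : Fin 7 → K} (hx : Dir x)
    (hy : Dir y) (h3 : x 2 + y 3 = 0) (h4 : x 4 + y 5 = 0) :
    Ph x y ∈ Tan 2 (Sig K) (Submodule.span K (Set.range m)) := by
  refine mem_tan_of_curve h.bas 0 0 fun τ => ?_
  rw [Ph_ch h, smul_zero, smul_zero, add_zero, add_zero]
  have hc : Ch (m + τ • ![x, y]) := h.add (hx.smul τ) (hy.smul τ)
  refine ⟨_, subset_cl Sig0_dim ⟨_, s, hc, ?_, ?_, rfl⟩, hc.bas⟩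
  · change m 0 2 + τ * x 2 + (m 1 3 + τ * y 3) = s ^ 3
    linear_combination h1 + τ * h3
  · change m 0 4 + τ * x 4 + (m 1 5 + τ * y 5) = s ^ 2
    linear_combination h2 + τ * h4

theorem tan_line' [Infinite K] {m : Fin 2 → Fin 7 → K} (h : Ch m)
    (h1 : m 0 2 + m 1 3 = 0) (h2 : m 0 4 + m 1 5 = 0) {x y : Fin 7 → K} (hx : Dir x)
    (hy : Dir y) (h3 : x 2 + y 3 = 0) (h4 : x 4 + y 5 = 0) :
    Ph x y ∈ Tan 2 (SS K) (Submodule.span K (Set.range m)) := by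
  refine mem_tan_of_curve h.bas 0 0 fun τ => ?_
  rw [Ph_ch h, smul_zero, smul_zero, add_zero, add_zero]
  have hc : Ch (m + τ • ![x, y]) := h.add (hx.smul τ) (hy.smul τ)
  refine ⟨_, subset_cl S0_dim ⟨_, hc, ?_, ?_, rfl⟩, hc.bas⟩
  · change m 0 2 + τ * x 2 + (m 1 3 + τ * y 3) = 0
    linear_combination h1 + τ * h3
  · change m 0 4 + τ * x 4 + (m 1 5 + τ * y 5) = 0
    linear_combination h2 + τ * h4

theorem tan_s [Infinite K] {m : Fin 2 → Fin 7 → K} (h : Ch m) {s : K}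
    (h1 : m 0 2 + m 1 3 = s ^ 3) (h2 : m 0 4 + m 1 5 = s ^ 2) :
    Ph (![0, 0, 3 * s ^ 2, 0, 2 * s, 0, 0]) 0 ∈ Tan 2 (Sig K) (Submodule.span K (Set.range m)) := by
  refine mem_tan_of_curve h.bas ![![0, 0, 3 * s, 0, 1, 0, 0], 0] ![![0, 0, 1, 0, 0, 0, 0], 0]
    fun τ => ?_
  rw [Ph_ch h]
  have d0 : ∀ a b : K, Dir (![0, 0, a, 0, b, 0, 0] : Fin 7 → K) := fun a b => ⟨rfl, rfl, rfl⟩
  have hc : Ch (m + τ • ![![0, 0, 3 * s ^ 2, 0, 2 * s, 0, 0], 0] +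
      τ ^ 2 • ![![0, 0, 3 * s, 0, 1, 0, 0], 0] + τ ^ 3 • ![![0, 0, 1, 0, 0, 0, 0], 0]) :=
    ((h.add ((d0 _ _).smul τ) (Dir.zero.smul τ)).add ((d0 _ _).smul (τ ^ 2))
      (Dir.zero.smul (τ ^ 2))).add ((d0 _ _).smul (τ ^ 3)) (Dir.zero.smul (τ ^ 3))
  refine ⟨_, subset_cl Sig0_dim ⟨_, s + τ, hc, ?_, ?_, rfl⟩, hc.bas⟩
  · change m 0 2 + τ * (3 * s ^ 2) + τ ^ 2 * (3 * s) + τ ^ 3 * 1 +
      (m 1 3 + τ * 0 + τ ^ 2 * 0 + τ ^ 3 * 0) = (s + τ) ^ 3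
    linear_combination h1
  · change m 0 4 + τ * (2 * s) + τ ^ 2 * 1 + τ ^ 3 * 0 +
      (m 1 5 + τ * 0 + τ ^ 2 * 0 + τ ^ 3 * 0) = (s + τ) ^ 2
    linear_combination h2

theorem tan_cusp [Infinite K] {m : Fin 2 → Fin 7 → K} (h : Ch m)
    (h1 : m 0 2 + m 1 3 = 0) (h2 : m 0 4 + m 1 5 = 0) :
    Ph (![0, 0, 0, 0, 1, 0, 0]) 0 ∈ Tan 2 (Sig K) (Submodule.span K (Set.range m)) ∧
    Ph (![0, 0, 1, 0, 0, 0, 0]) 0 ∈ Tan 2 (Sig K) (Submodule.span K (Set.range m)) := by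
  refine mem_tan_of_cusp h.bas fun τ => ?_
  rw [Ph_ch h, Ph_ch h]
  have d0 : ∀ a b : K, Dir (![0, 0, a, 0, b, 0, 0] : Fin 7 → K) := fun a b => ⟨rfl, rfl, rfl⟩
  have hc : Ch (m + τ ^ 2 • ![![0, 0, 0, 0, 1, 0, 0], 0] + τ ^ 3 • ![![0, 0, 1, 0, 0, 0, 0], 0]) :=
    (h.add ((d0 _ _).smul (τ ^ 2)) (Dir.zero.smul (τ ^ 2))).add ((d0 _ _).smul (τ ^ 3))
      (Dir.zero.smul (τ ^ 3))
  refine ⟨_, subset_cl Sig0_dim ⟨_, τ, hc, ?_, ?_, rfl⟩, hc.bas⟩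
  · change m 0 2 + τ ^ 2 * 0 + τ ^ 3 * 1 + (m 1 3 + τ ^ 2 * 0 + τ ^ 3 * 0) = τ ^ 3
    linear_combination h1
  · change m 0 4 + τ ^ 2 * 1 + τ ^ 3 * 0 + (m 1 5 + τ ^ 2 * 0 + τ ^ 3 * 0) = τ ^ 2
    linear_combination h2

end Pool.Agent.Helper37K9.CO
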