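import Pool.Agent.Helper37K9.CO.Comp

set_option autoImplicit false

namespace Pool.Agent.Helper37K9.CO

open MvPolynomial

section General

variable {K : Type} [Field K] {W : Type} [AddCommGroup W] [Module K W] {r : ℕ}

/-- independence is an open condition on a line of `r`-tuples -/
theorem li_poly {B : Fin r → W} (hB : LinearIndependent K B) (u : Fin r → W) :
    ∃ D : Polynomial K, D.eval 0 ≠ 0 ∧ ∀ τ, D.eval τ ≠ 0 → LinearIndependent K (B + τ • u) := by
  obtain ⟨ρ, hρ⟩ := exists_coord hB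
  let g : Matrix (Fin r) (Fin r) K := Matrix.of fun i j => ρ (u i) j
  let D : Polynomial K := (1 + (Polynomial.X : Polynomial K) • g.map (fun a => Polynomial.C a) :
    Matrix (Fin r) (Fin r) (Polynomial K)).det
  have hD : ∀ τ : K, D.eval τ = (1 + τ • g).det := by
    intro τ
    have : D.eval τ = (Polynomial.evalRingHom τ) D := rfl
    rw [this, RingHom.map_det]
    congr 1
    ext i j
    simp [Matrix.one_apply, Matrix.map_apply, apply_ite]
    ring
  refine ⟨D, ?_, fun τ h => ?_⟩
  · rw [hD, zero_smul, add_zero, Matrix.det_one]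
    exact one_ne_zero
  · rw [hD] at h
    rw [Fintype.linearIndependent_iff]
    intro c hc
    have h1 : ∀ i, ρ (B i) = (1 : Matrix (Fin r) (Fin r) K) i := by
      intro i
      have h2 := hρ (Pi.single i 1)
      rw [Finset.sum_eq_single i, Pi.single_eq_same, one_smul] at h2
      · rw [h2]
        funext j
        rw [Matrix.one_apply, Pi.single_apply]
        exact if_congr eq_comm rfl rfl
      · intro j _ hj; rw [Pi.single_eq_of_ne hj, zero_smul]
      · intro h; exact absurd (Finset.mem_univ i) h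
    have h2 : Matrix.vecMul c (1 + τ • g) = 0 := by
      have h3 : ρ (∑ i, c i • (B + τ • u) i) = 0 := by rw [hc, map_zero]
      rw [map_sum] at h3
      rw [← h3]
      funext j
      rw [Finset.sum_apply]
      change ∑ i, c i * (1 + τ • g) i j = _
      refine Finset.sum_congr rfl fun i _ => ?_
      have h4 : ρ (c i • (B + τ • u) i) = c i • (ρ (B i) + τ • ρ (u i)) := by
        rw [map_smul]
        change c i • ρ (B i + τ • u i) = _
        rw [map_add, map_smul]
      rw [h4, h1]
      rfl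
    exact fun i => congrFun (Matrix.eq_zero_of_vecMul_eq_zero h h2) i

/-- limits of points of `Z` along a line are in the closure -/
theorem mem_cl_of_line [Infinite K] {Z : Set (Submodule K W)} {L : Submodule K W}
    {B : Fin r → W} (hB : IsBas B L) (u : Fin r → W)
    (h : ∀ τ : K, τ ≠ 0 → LinearIndependent K (B + τ • u) →
      Submodule.span K (Set.range (B + τ • u)) ∈ Z) : L ∈ cl r Z := by
  by_contra hcon
  obtain ⟨F, hF, hne⟩ := van_of_bas hB hcon
  obtain ⟨R, hR⟩ := taylor₁ B u 0 0 F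
  obtain ⟨D, hD0, hD⟩ := li_poly hB.1 u
  let q : Polynomial K := Polynomial.C (val B F) + Polynomial.X * Polynomial.C (dif B u F) +
      Polynomial.X ^ 2 * R
  have hq : ∀ τ, q.eval τ = val (B + τ • u) F := by
    intro τ
    have h1 := hR τ
    rw [smul_zero, smul_zero, add_zero, add_zero] at h1
    rw [h1]
    simp only [q, Polynomial.eval_add, Polynomial.eval_mul, Polynomial.eval_C, Polynomial.eval_X,
      Polynomial.eval_pow]
  have h1 : Polynomial.X * (D * q) = 0 := poly_zero fun τ => by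
    rw [Polynomial.eval_mul, Polynomial.eval_mul, Polynomial.eval_X]
    rcases eq_or_ne τ 0 with h0 | h0
    · rw [h0, zero_mul]
    · rcases eq_or_ne (D.eval τ) 0 with h2 | h2
      · rw [h2, zero_mul, mul_zero]
      · have h3 := hD τ h2
        rw [hq, hF _ (h τ h0 h3) _ ⟨h3, rfl⟩, mul_zero, mul_zero]
  have h2 : D ≠ 0 := by rintro rfl; exact hD0 Polynomial.eval_zero
  have h3 : q = 0 :=
    (mul_eq_zero.1 ((mul_eq_zero.1 h1).resolve_left Polynomial.X_ne_zero)).resolve_left h2
  have h4 := hq 0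
  rw [h3, zero_smul, add_zero, Polynomial.eval_zero] at h4
  exact hne h4.symm

theorem rank_smulRight {ξ : Module.Dual K W} {v : W} (h : ξ.smulRight v ≠ 0) :
    Module.finrank K (LinearMap.range (ξ.smulRight v)) = 1 := by
  have h1 : ξ ≠ 0 := by
    rintro rfl
    exact h (LinearMap.ext fun x => zero_smul K v)
  have h2 : v ≠ 0 := by
    rintro rfl
    exact h (LinearMap.ext fun x => smul_zero _)
  rw [LinearMap.range_smulRight_apply h1]
  exact finrank_span_singleton h2

end General

variable {K : Type} [Field K]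

theorem finrank_smooth [Infinite K] [CharZero K] {L : Submodule K (Fin 7 → K)}
    (h : Smooth 2 (Sig K) L) : Module.finrank K (Con 2 (Sig K) L) = 3 :=
  le_antisymm (Sig_dim3 h.1) (mS_three.trans (h.2 _ (subset_cl Sig0_dim mS_mem)))

/-- The hypersurface is coisotropic. -/
theorem Sig_coiso [Infinite K] [CharZero K] : Coisotropic 2 (Sig K) := by
  intro L hs
  have hr := finrank_smooth hs
  rw [hr]
  obtain ⟨m, hm⟩ := exists_bas hs.1.1
  obtain ⟨ρ, hρ⟩ := exists_coord hm.1
  have hh0 := hh_zero hh_ideal hs.1 hm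
  have hH := hh_con hh_ideal hs.1 hm
  have hh6 : hh K (e K 6) = 1 := by
    change e K 6 6 = 1
    exact Pi.single_eq_same 6 1
  have hhne : hh K ≠ 0 := fun h0 => by
    rw [h0] at hh6
    exact zero_ne_one hh6
  -- the third vector
  obtain ⟨ψ, hψ, hψn⟩ : ∃ ψ ∈ Con 2 (Sig K) L,
      ψ ∉ Submodule.span K (Set.range ![(hh K).smulRight (m 0), (hh K).smulRight (m 1)]) := by
    by_contra hcon
    simp only [not_exists, not_and, not_not] at hcon
    have h1 : Con 2 (Sig K) L ≤
        Submodule.span K (Set.range ![(hh K).smulRight (m 0), (hh K).smulRight (m 1)]) :=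
      fun ψ hψ => hcon ψ hψ
    have h2 := Submodule.finrank_mono h1
    have h3 := finrank_range_le_card (R := K) ![(hh K).smulRight (m 0), (hh K).smulRight (m 1)]
    rw [Set.finrank, Fintype.card_fin] at h3
    omega
  let B : Fin 3 → ((Fin 7 → K) →ₗ[K] (Fin 7 → K)) :=
    ![(hh K).smulRight (m 0), (hh K).smulRight (m 1), ψ]
  have hBmem : ∀ i, B i ∈ Con 2 (Sig K) L := by
    intro i
    fin_cases i
    · exact hH 0
    · exact hH 1
    · exact hψ
  have hBli : LinearIndependent K B := by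
    rw [Fintype.linearIndependent_iff]
    intro c hc
    rw [Fin.sum_univ_three] at hc
    change c 0 • (hh K).smulRight (m 0) + c 1 • (hh K).smulRight (m 1) + c 2 • ψ = 0 at hc
    have h2 : c 2 = 0 := by
      by_contra h2
      refine hψn ?_
      have h3 : ψ = (-(c 2)⁻¹ * c 0) • (hh K).smulRight (m 0) +
          (-(c 2)⁻¹ * c 1) • (hh K).smulRight (m 1) := by
        have h4 : ψ = (c 2)⁻¹ • (c 2 • ψ) := by rw [smul_smul, inv_mul_cancel₀ h2, one_smul]
        have h5 : c 2 • ψ = -(c 0 • (hh K).smulRight (m 0) + c 1 • (hh K).smulRight (m 1)) :=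
          eq_neg_of_add_eq_zero_right hc
        rw [h4, h5]
        module
      rw [h3]
      exact Submodule.add_mem _ (Submodule.smul_mem _ _ (Submodule.subset_span ⟨0, rfl⟩))
        (Submodule.smul_mem _ _ (Submodule.subset_span ⟨1, rfl⟩))
    rw [h2, zero_smul, add_zero] at hc
    have h3 := LinearMap.congr_fun hc (e K 6)
    simp only [LinearMap.add_apply, LinearMap.smul_apply, LinearMap.smulRight_apply, hh6,
      one_smul, LinearMap.zero_apply] at h3
    have h4 : ∑ i, ![c 0, c 1] i • m i = 0 := by rw [Fin.sum_univ_two]; exact h3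
    have h5 := Fintype.linearIndependent_iff.1 hm.1 _ h4
    intro i
    fin_cases i
    · exact h5 0
    · exact h5 1
    · exact h2
  have hB : IsBas B (Con 2 (Sig K) L) := by
    refine ⟨hBli, Submodule.eq_of_le_of_finrank_eq (Submodule.span_le.2 ?_) ?_⟩
    · rintro _ ⟨i, rfl⟩
      exact hBmem i
    · rw [finrank_span_eq_card hBli, Fintype.card_fin, hr]
  -- the components of `ψ`
  let ξ : Fin 2 → Module.Dual K (Fin 7 → K) := fun i => LinearMap.proj i ∘ₗ ρ ∘ₗ ψ
  have hξ : ∀ x, ψ x = ξ 0 x • m 0 + ξ 1 x • m 1 := by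
    intro x
    have h1 := mem_of_coord hm hρ (hψ.1.2 ⟨x, rfl⟩)
    rw [Fin.sum_univ_two] at h1
    exact h1
  have hξ0 : ∀ i, ∀ x ∈ L, ξ i x = 0 := by
    intro i x hx
    change ρ (ψ x) i = 0
    rw [LinearMap.mem_ker.1 (hψ.1.1 hx), map_zero]
    rfl
  have hcot : ∀ (ζ : Module.Dual K (Fin 7 → K)) (v : Fin 7 → K), (∀ x ∈ L, ζ x = 0) → v ∈ L →
      ζ.smulRight v ∈ Cot L := by
    intro ζ v h1 h2
    refine ⟨fun x hx => ?_, ?_⟩
    · rw [LinearMap.mem_ker, LinearMap.smulRight_apply, h1 x hx, zero_smul]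
    · rintro _ ⟨x, rfl⟩
      exact L.smul_mem _ h2
  have hmL : ∀ i, m i ∈ L := fun i => by rw [← hm.2]; exact Submodule.subset_span ⟨i, rfl⟩
  refine mem_cl_of_line hB ![-(ξ 0).smulRight (m 0), -(ξ 1).smulRight (m 1), 0]
    fun τ hτ hli => ?_
  set Bτ := B + τ • ![-(ξ 0).smulRight (m 0), -(ξ 1).smulRight (m 1), 0] with hBτ
  have hB0 : Bτ 0 = (hh K - τ • ξ 0).smulRight (m 0) := by
    refine LinearMap.ext fun x => ?_
    change hh K x • m 0 + τ • -(ξ 0 x • m 0) = (hh K x - τ * ξ 0 x) • m 0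
    rw [sub_smul, smul_neg, smul_smul, sub_eq_add_neg]
  have hB1 : Bτ 1 = (hh K - τ • ξ 1).smulRight (m 1) := by
    refine LinearMap.ext fun x => ?_
    change hh K x • m 1 + τ • -(ξ 1 x • m 1) = (hh K x - τ * ξ 1 x) • m 1
    rw [sub_smul, smul_neg, smul_smul, sub_eq_add_neg]
  have hB2 : Bτ 2 = ψ := by
    change ψ + τ • (0 : (Fin 7 → K) →ₗ[K] (Fin 7 → K)) = ψ
    rw [smul_zero, add_zero]
  have hsum : (hh K).smulRight (m 0 + m 1) = Bτ 0 + Bτ 1 + τ • Bτ 2 := by
    rw [hB0, hB1, hB2]
    refine LinearMap.ext fun x => ?_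
    simp only [LinearMap.add_apply, LinearMap.smul_apply, LinearMap.smulRight_apply,
      LinearMap.sub_apply, hξ x, smul_add, sub_smul, smul_eq_mul, smul_smul]
    abel
  refine ⟨?_, IsBas.finrank_eq ⟨hli, rfl⟩,
    {Bτ 0, Bτ 1, (hh K).smulRight (m 0 + m 1)}, ?_, ?_⟩
  · refine Submodule.span_le.2 ?_
    rintro _ ⟨i, rfl⟩
    fin_cases i
    · change Bτ 0 ∈ Cot L
      rw [hB0]
      refine hcot _ _ (fun x hx => ?_) (hmL 0)
      rw [LinearMap.sub_apply, LinearMap.smul_apply, hh0 x hx, hξ0 0 x hx, smul_zero, sub_zero]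
    · change Bτ 1 ∈ Cot L
      rw [hB1]
      refine hcot _ _ (fun x hx => ?_) (hmL 1)
      rw [LinearMap.sub_apply, LinearMap.smul_apply, hh0 x hx, hξ0 1 x hx, smul_zero, sub_zero]
    · change Bτ 2 ∈ Cot L
      rw [hB2]
      exact hψ.1
  · rintro R (rfl | rfl | rfl)
    · have h1 := hli.ne_zero 0
      rw [hB0] at h1 ⊢
      exact rank_smulRight h1
    · have h1 := hli.ne_zero 1
      rw [hB1] at h1 ⊢
      exact rank_smulRight h1
    · refine rank_smulRight fun h0 => ?_
      have h1 := LinearMap.congr_fun h0 (e K 6)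
      rw [LinearMap.smulRight_apply, hh6, one_smul, LinearMap.zero_apply] at h1
      have h4 : ∑ i, ![(1 : K), 1] i • m i = 0 := by
        rw [Fin.sum_univ_two]
        change (1 : K) • m 0 + (1 : K) • m 1 = 0
        rw [one_smul, one_smul]; exact h1
      exact one_ne_zero (Fintype.linearIndependent_iff.1 hm.1 _ h4 0)
  · refine le_antisymm (Submodule.span_le.2 ?_) (Submodule.span_le.2 ?_)
    · rintro R (rfl | rfl | rfl)
      · exact Submodule.subset_span ⟨0, rfl⟩
      · exact Submodule.subset_span ⟨1, rfl⟩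
      · rw [hsum]
        exact Submodule.add_mem _ (Submodule.add_mem _ (Submodule.subset_span ⟨0, rfl⟩)
          (Submodule.subset_span ⟨1, rfl⟩)) (Submodule.smul_mem _ _ (Submodule.subset_span ⟨2, rfl⟩))
    · rintro _ ⟨i, rfl⟩
      have k0 : Bτ 0 ∈ Submodule.span K ({Bτ 0, Bτ 1, (hh K).smulRight (m 0 + m 1)} : Set _) :=
        Submodule.subset_span (Or.inl rfl)
      have k1 : Bτ 1 ∈ Submodule.span K ({Bτ 0, Bτ 1, (hh K).smulRight (m 0 + m 1)} : Set _) :=
        Submodule.subset_span (Or.inr (Or.inl rfl))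
      have k2 : (hh K).smulRight (m 0 + m 1) ∈
          Submodule.span K ({Bτ 0, Bτ 1, (hh K).smulRight (m 0 + m 1)} : Set _) :=
        Submodule.subset_span (Or.inr (Or.inr rfl))
      fin_cases i
      · exact k0
      · exact k1
      · have h5 : Bτ 2 = τ⁻¹ • ((hh K).smulRight (m 0 + m 1) - (Bτ 0 + Bτ 1)) := by
          rw [hsum, add_sub_cancel_left, smul_smul, inv_mul_cancel₀ hτ, one_smul]
        change Bτ 2 ∈ _
        rw [h5]
        exact Submodule.smul_mem _ _ (Submodule.sub_mem _ k2 (Submodule.add_mem _ k0 k1))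

end Pool.Agent.Helper37K9.CO
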