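import Pool.Agent.Helper37K9.CO.Lower

set_option autoImplicit false

namespace Pool.Agent.Helper37K9.CO

open MvPolynomial

variable {K : Type} [Field K]

theorem chart {L : Submodule K (Fin 7 → K)} (hL : L ∈ Sig K) (hD : ¬ Van (DD K) L) :
    ∃ m : Fin 2 → Fin 7 → K, Ch m ∧ (m 0 2 + m 1 3) ^ 2 = (m 0 4 + m 1 5) ^ 3 ∧
      L = Submodule.span K (Set.range m) := by
  simp only [Van, not_forall] at hD
  obtain ⟨n, hn, hne⟩ := hD
  rw [DD, val_pp] at hne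
  set d := n 0 0 * n 1 1 - n 0 1 * n 1 0 with hd
  have h1 : (!![d⁻¹ * n 1 1, -(d⁻¹ * n 0 1); -(d⁻¹ * n 1 0), d⁻¹ * n 0 0] : Matrix (Fin 2) (Fin 2) K)
      * !![n 0 0, n 0 1; n 1 0, n 1 1] = 1 := by
    rw [Matrix.mul_fin_two, Matrix.one_fin_two]
    congr 1
    · funext i j
      fin_cases i <;> fin_cases j
      · change d⁻¹ * n 1 1 * n 0 0 + -(d⁻¹ * n 0 1) * n 1 0 = 1
        rw [← inv_mul_cancel₀ hne, hd]; ring
      · change d⁻¹ * n 1 1 * n 0 1 + -(d⁻¹ * n 0 1) * n 1 1 = 0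
        ring
      · change -(d⁻¹ * n 1 0) * n 0 0 + d⁻¹ * n 0 0 * n 1 0 = 0
        ring
      · change -(d⁻¹ * n 1 0) * n 0 1 + d⁻¹ * n 0 0 * n 1 1 = 1
        rw [← inv_mul_cancel₀ hne, hd]; ring
  have h2 := mul_eq_one_comm.1 h1
  have hb := act_bas hn.1 h1 h2
  rw [hn.2] at hb
  set m := act (!![d⁻¹ * n 1 1, -(d⁻¹ * n 0 1); -(d⁻¹ * n 1 0), d⁻¹ * n 0 0] :
    Matrix (Fin 2) (Fin 2) K) n with hm
  have m0 : ∀ j, m 0 j = d⁻¹ * n 1 1 * n 0 j + -(d⁻¹ * n 0 1) * n 1 j := by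
    intro j
    rw [hm]
    simp only [act, Fin.sum_univ_two, Pi.add_apply, Pi.smul_apply, smul_eq_mul]
    rfl
  have m1 : ∀ j, m 1 j = -(d⁻¹ * n 1 0) * n 0 j + d⁻¹ * n 0 0 * n 1 j := by
    intro j
    rw [hm]
    simp only [act, Fin.sum_univ_two, Pi.add_apply, Pi.smul_apply, smul_eq_mul]
    rfl
  have hch : Ch m := by
    refine ⟨?_, ?_, ?_, ?_, ?_, ?_⟩
    · rw [m0, ← inv_mul_cancel₀ hne, hd]; ring
    · rw [m0]; ring
    · rw [m1]; ring
    · rw [m1, ← inv_mul_cancel₀ hne, hd]; ring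
    · have := hL.2 _ (fun L hL => hh_ideal 0 L (subset_cl Sig0_dim hL)) m hb
      rwa [val_xx] at this
    · have := hL.2 _ (fun L hL => hh_ideal 1 L (subset_cl Sig0_dim hL)) m hb
      rwa [val_xx] at this
  refine ⟨m, hch, ?_, hb.2.symm⟩
  have := hL.2 _ (fun L hL => FF_ideal L (subset_cl Sig0_dim hL)) m hb
  rw [val_FF hch] at this
  exact sub_eq_zero.1 this

/-- the value of the parameter -/
theorem exists_s {f g : K} (h : f ^ 2 = g ^ 3) : ∃ s : K, f = s ^ 3 ∧ g = s ^ 2 := by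
  rcases eq_or_ne g 0 with h0 | h0
  · refine ⟨0, ?_, by rw [h0]; ring⟩
    rw [h0] at h
    have : f ^ 2 = 0 := by rw [h]; ring
    rw [pow_eq_zero_iff (two_ne_zero)] at this
    rw [this]; ring
  · have hf : f ≠ 0 := by
      rintro rfl
      refine pow_ne_zero 3 h0 ?_
      rw [← h]; ring
    refine ⟨f / g, ?_, ?_⟩
    · rw [div_pow, ← h]
      field_simp
    · rw [div_pow, h]
      field_simp

theorem smooth_of_ne [Infinite K] [CharZero K] {m : Fin 2 → Fin 7 → K} (h : Ch m) {s : K}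
    (h1 : m 0 2 + m 1 3 = s ^ 3) (h2 : m 0 4 + m 1 5 = s ^ 2) (hs : s ≠ 0) :
    Smooth 2 (Sig K) (Submodule.span K (Set.range m)) :=
  ⟨subset_cl Sig0_dim ⟨m, s, h, h1, h2, rfl⟩, fun _ hL' =>
    (Sig_dim3 hL').trans (three_le h h1 h2 hs)⟩

/-- a smooth point -/
def mS (K : Type) [Field K] : Fin 2 → Fin 7 → K := ![![1, 0, 1, 0, 1, 0, 0], ![0, 1, 0, 0, 0, 0, 0]]

theorem mS_ch : Ch (mS K) := ⟨rfl, rfl, rfl, rfl, rfl, rfl⟩

theorem mS_mem : Submodule.span K (Set.range (mS K)) ∈ Sig0 K :=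
  ⟨mS K, 1, mS_ch, by change (1 : K) + 0 = 1 ^ 3; ring, by change (1 : K) + 0 = 1 ^ 2; ring, rfl⟩

theorem mS_three [CharZero K] :
    3 ≤ Module.finrank K (Con 2 (Sig K) (Submodule.span K (Set.range (mS K)))) :=
  three_le (s := 1) mS_ch (by change (1 : K) + 0 = 1 ^ 3; ring)
    (by change (1 : K) + 0 = 1 ^ 2; ring) one_ne_zero

/-- a point of the singular locus -/
def mO (K : Type) [Field K] : Fin 2 → Fin 7 → K := ![![1, 0, 0, 0, 0, 0, 0], ![0, 1, 0, 0, 0, 0, 0]]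

theorem mO_ch : Ch (mO K) := ⟨rfl, rfl, rfl, rfl, rfl, rfl⟩

theorem mO_mem : Submodule.span K (Set.range (mO K)) ∈ S0 K :=
  ⟨mO K, mO_ch, add_zero _, add_zero _, rfl⟩

theorem SS_comp [Infinite K] [CharZero K] : IsComp 2 (SS K) (Sing 2 (Sig K)) := by
  refine ⟨SS_var, fun L hL => ⟨SS_sub hL, fun hs => ?_⟩, ?_⟩
  · have h1 := hs.2 _ (subset_cl Sig0_dim mS_mem)
    have h2 := Sig_dim2 hL
    have h3 := mS_three (K := K)
    omega
  · intro S' hS' h1 h2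
    have hZ : cl 2 {L : Submodule K (Fin 7 → K) | Module.finrank K L = 2 ∧ Van (DD K) L} =
        {L : Submodule K (Fin 7 → K) | Module.finrank K L = 2 ∧ Van (DD K) L} :=
      le_antisymm (fun L hL => ⟨hL.1, hL.2 _ fun L' hL' => hL'.2⟩) (subset_cl fun L hL => hL.1)
    have h3 : S' ⊆ SS K ∪ {L : Submodule K (Fin 7 → K) | Module.finrank K L = 2 ∧ Van (DD K) L} := by
      intro L hL
      have hs := h2 hL
      by_cases hD : Van (DD K) L
      · exact Or.inr ⟨hs.1.1, hD⟩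
      · refine Or.inl ?_
        obtain ⟨m, hm, he, rfl⟩ := chart hs.1 hD
        obtain ⟨s, g1, g2⟩ := exists_s he
        rcases eq_or_ne s 0 with h0 | h0
        · subst h0
          refine subset_cl S0_dim ⟨m, hm, ?_, ?_, rfl⟩
          · rw [g1]; ring
          · rw [g2]; ring
        · exact absurd (smooth_of_ne hm g1 g2 h0) hs.2
    rcases hS'.2.2 _ _ (cl_cl S0_dim) hZ h3 with h | h
    · exact le_antisymm h h1
    · exfalso
      have h4 := (h (h1 (subset_cl S0_dim mO_mem))).2 (mO K) mO_ch.bas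
      rw [val_DD mO_ch] at h4
      exact one_ne_zero h4

end Pool.Agent.Helper37K9.CO
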