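import Pool.Agent.Helper37K9.CO.Chart

set_option autoImplicit false

namespace Pool.Agent.Helper37K9.CO

open MvPolynomial

variable {K : Type} [Field K]

/-- the basis vectors -/
abbrev e (K : Type) [Field K] (j : Fin 7) : Fin 7 → K := Pi.single j 1

theorem e_dir {j : Fin 7} (h : j ≠ 0) (h' : j ≠ 1) (h'' : j ≠ 6) : Dir (e K j) :=
  ⟨Pi.single_eq_of_ne h.symm 1, Pi.single_eq_of_ne h'.symm 1, Pi.single_eq_of_ne h''.symm 1⟩

theorem eq_sum_e (x : Fin 7 → K) : x = x 0 • e K 0 + x 1 • e K 1 + x 2 • e K 2 + x 3 • e K 3 +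
    x 4 • e K 4 + x 5 • e K 5 + x 6 • e K 6 := by
  funext j
  fin_cases j <;> simp [e, Pi.single_apply]

/-- an element of the cotangent space is zero if its values at `e₂, …, e₆` have coordinates zero -/
theorem cot_zero {m : Fin 2 → Fin 7 → K} (h : Ch m) {Ψ : (Fin 7 → K) →ₗ[K] (Fin 7 → K)}
    (hΨ : Ψ ∈ Cot (Submodule.span K (Set.range m)))
    (h2 : Ψ (e K 2) 0 = 0 ∧ Ψ (e K 2) 1 = 0) (h3 : Ψ (e K 3) 0 = 0 ∧ Ψ (e K 3) 1 = 0)
    (h4 : Ψ (e K 4) 0 = 0 ∧ Ψ (e K 4) 1 = 0) (h5 : Ψ (e K 5) 0 = 0 ∧ Ψ (e K 5) 1 = 0)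
    (h6 : Ψ (e K 6) 0 = 0 ∧ Ψ (e K 6) 1 = 0) : Ψ = 0 := by
  have key : ∀ j, Ψ (e K j) 0 = 0 ∧ Ψ (e K j) 1 = 0 → Ψ (e K j) = 0 := by
    rintro j ⟨g1, g2⟩
    rw [h.mem (hΨ.2 ⟨e K j, rfl⟩), g1, g2, zero_smul, zero_smul, add_zero]
  have k2 := key 2 h2
  have k3 := key 3 h3
  have k4 := key 4 h4
  have k5 := key 5 h5
  have k6 := key 6 h6
  have hm : ∀ i, Ψ (m i) = 0 := fun i => hΨ.1 (Submodule.subset_span ⟨i, rfl⟩)
  have gen : ∀ x, Ψ x = x 0 • Ψ (e K 0) + x 1 • Ψ (e K 1) := by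
    intro x
    conv_lhs => rw [eq_sum_e x]
    simp only [map_add, map_smul, k2, k3, k4, k5, k6, smul_zero, add_zero]
  obtain ⟨g1, g2, g3, g4, -, -⟩ := h
  have k0 : Ψ (e K 0) = 0 := by
    have := gen (m 0)
    rw [hm, g1, g2, one_smul, zero_smul, add_zero] at this
    exact this.symm
  have k1 : Ψ (e K 1) = 0 := by
    have := gen (m 1)
    rw [hm, g3, g4, one_smul, zero_smul, zero_add] at this
    exact this.symm
  refine LinearMap.ext fun x => ?_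
  rw [gen, k0, k1, smul_zero, smul_zero, add_zero, LinearMap.zero_apply]

/-- a subspace on which some functionals have no common zero -/
theorem finrank_le_of_inj {U : Submodule K ((Fin 7 → K) →ₗ[K] (Fin 7 → K))} {r : ℕ}
    (f : Fin r → ((Fin 7 → K) →ₗ[K] (Fin 7 → K)) →ₗ[K] K)
    (h : ∀ Ψ ∈ U, (∀ i, f i Ψ = 0) → Ψ = 0) : Module.finrank K U ≤ r := by
  let g : U →ₗ[K] (Fin r → K) := LinearMap.pi fun i => f i ∘ₗ U.subtype
  have hg : Function.Injective g := by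
    intro a b hab
    have h0 : ∀ i, f i (a.1 - b.1) = 0 := fun i => by
      rw [map_sub]; exact sub_eq_zero.2 (congrFun hab i)
    exact Subtype.ext (sub_eq_zero.1 (h _ (U.sub_mem a.2 b.2) h0))
  have := LinearMap.finrank_le_finrank_of_injective hg
  rwa [Module.finrank_fintype_fun_eq_card, Fintype.card_fin] at this

theorem le_finrank_of_li {U : Submodule K ((Fin 7 → K) →ₗ[K] (Fin 7 → K))} {r : ℕ}
    (f : Fin r → ((Fin 7 → K) →ₗ[K] (Fin 7 → K))) (hf : ∀ i, f i ∈ U)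
    (h : LinearIndependent K f) : r ≤ Module.finrank K U := by
  have h1 : LinearIndependent K (fun i => (⟨f i, hf i⟩ : U)) :=
    LinearIndependent.of_comp U.subtype h
  have := h1.fintype_card_le_finrank
  rwa [Fintype.card_fin] at this

/-- the coordinate `i` of `Ψ (e j)` -/
noncomputable def co (K : Type) [Field K] (i j : Fin 7) :
    ((Fin 7 → K) →ₗ[K] (Fin 7 → K)) →ₗ[K] K :=
  (LinearMap.proj i : (Fin 7 → K) →ₗ[K] K) ∘ₗ LinearMap.applyₗ (e K j)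

theorem co_apply (i j : Fin 7) (Ψ : (Fin 7 → K) →ₗ[K] (Fin 7 → K)) : co K i j Ψ = Ψ (e K j) i := rfl

/-- the relations for the conormal vectors from the directions in which `s` is constant -/
theorem con_rel {m : Fin 2 → Fin 7 → K} {Z : Set (Submodule K (Fin 7 → K))}
    (ht : ∀ x y : Fin 7 → K, Dir x → Dir y → x 2 + y 3 = 0 → x 4 + y 5 = 0 →
      Ph x y ∈ Tan 2 Z (Submodule.span K (Set.range m)))
    {Ψ : (Fin 7 → K) →ₗ[K] (Fin 7 → K)} (hΨ : Ψ ∈ Con 2 Z (Submodule.span K (Set.range m))) :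
    Ψ (e K 3) 0 = 0 ∧ Ψ (e K 5) 0 = 0 ∧ Ψ (e K 2) 1 = 0 ∧ Ψ (e K 4) 1 = 0 ∧
      Ψ (e K 2) 0 = Ψ (e K 3) 1 ∧ Ψ (e K 4) 0 = Ψ (e K 5) 1 := by
  have key : ∀ x y : Fin 7 → K, Dir x → Dir y → x 2 + y 3 = 0 → x 4 + y 5 = 0 →
      Ψ x 0 + Ψ y 1 = 0 := fun x y hx hy h1 h2 => by
    rw [← trace_Ph]; exact hΨ.2 _ (ht x y hx hy h1 h2)
  have d2 : Dir (e K 2) := e_dir (by decide) (by decide) (by decide)
  have d3 : Dir (e K 3) := e_dir (by decide) (by decide) (by decide)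
  have d4 : Dir (e K 4) := e_dir (by decide) (by decide) (by decide)
  have d5 : Dir (e K 5) := e_dir (by decide) (by decide) (by decide)
  have z : ∀ i j : Fin 7, i ≠ j → e K j i = 0 := fun i j h => Pi.single_eq_of_ne h 1
  have o : ∀ i : Fin 7, e K i i = 1 := fun i => Pi.single_eq_same i 1
  refine ⟨?_, ?_, ?_, ?_, ?_, ?_⟩
  · have := key (e K 3) 0 d3 Dir.zero (by rw [z 2 3 (by decide)]; exact add_zero _)
      (by rw [z 4 3 (by decide)]; exact add_zero _)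
    rwa [map_zero, Pi.zero_apply, add_zero] at this
  · have := key (e K 5) 0 d5 Dir.zero (by rw [z 2 5 (by decide)]; exact add_zero _)
      (by rw [z 4 5 (by decide)]; exact add_zero _)
    rwa [map_zero, Pi.zero_apply, add_zero] at this
  · have := key 0 (e K 2) Dir.zero d2 (by rw [z 3 2 (by decide)]; exact add_zero _)
      (by rw [z 5 2 (by decide)]; exact add_zero _)
    rwa [map_zero, Pi.zero_apply, zero_add] at this
  · have := key 0 (e K 4) Dir.zero d4 (by rw [z 3 4 (by decide)]; exact add_zero _)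
      (by rw [z 5 4 (by decide)]; exact add_zero _)
    rwa [map_zero, Pi.zero_apply, zero_add] at this
  · have := key (e K 2) ((-1 : K) • e K 3) d2 (d3.smul _)
      (by change e K 2 2 + (-1) * e K 3 3 = 0
          rw [o, o]; ring)
      (by change e K 2 4 + (-1) * e K 3 5 = 0
          rw [z 4 2 (by decide), z 5 3 (by decide)]; ring)
    rw [map_smul] at this
    change Ψ (e K 2) 0 + (-1) * Ψ (e K 3) 1 = 0 at this
    linear_combination this
  · have := key (e K 4) ((-1 : K) • e K 5) d4 (d5.smul _)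
      (by change e K 4 2 + (-1) * e K 5 3 = 0
          rw [z 2 4 (by decide), z 3 5 (by decide)]; ring)
      (by change e K 4 4 + (-1) * e K 5 5 = 0
          rw [o, o]; ring)
    rw [map_smul] at this
    change Ψ (e K 4) 0 + (-1) * Ψ (e K 5) 1 = 0 at this
    linear_combination this

theorem con_Sig_le [Infinite K] [CharZero K] {L : Submodule K (Fin 7 → K)} (hL : L ∈ Sig0 K) :
    Module.finrank K (Con 2 (Sig K) L) ≤ 3 := by
  obtain ⟨m, s, h, h1, h2, rfl⟩ := hL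
  refine finrank_le_of_inj ![co K 0 6, co K 1 6, co K 0 4] fun Ψ hΨ hf => ?_
  obtain ⟨r1, r2, r3, r4, r5, r6⟩ := con_rel (fun x y hx hy g1 g2 => tan_line h h1 h2 hx hy g1 g2) hΨ
  have f0 : Ψ (e K 6) 0 = 0 := hf 0
  have f1 : Ψ (e K 6) 1 = 0 := hf 1
  have f2 : Ψ (e K 4) 0 = 0 := hf 2
  have f3 : Ψ (e K 2) 0 = 0 := by
    rcases eq_or_ne s 0 with h0 | h0
    · subst h0
      have g := hΨ.2 _ (tan_cusp h (by rw [h1]; ring) (by rw [h2]; ring)).2
      rw [trace_Ph, map_zero, Pi.zero_apply, add_zero] at g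
      have g2 : (![0, 0, 1, 0, 0, 0, 0] : Fin 7 → K) = e K 2 := by
        funext j
        fin_cases j <;> simp [e]
      rwa [g2] at g
    · have g := hΨ.2 _ (tan_s h h1 h2)
      rw [trace_Ph, map_zero, Pi.zero_apply, add_zero] at g
      have g2 : (![0, 0, 3 * s ^ 2, 0, 2 * s, 0, 0] : Fin 7 → K) =
          (3 * s ^ 2) • e K 2 + (2 * s) • e K 4 := by
        funext j
        fin_cases j <;> simp [e]
      rw [g2, map_add, map_smul, map_smul] at g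
      change 3 * s ^ 2 * Ψ (e K 2) 0 + 2 * s * Ψ (e K 4) 0 = 0 at g
      rw [f2, mul_zero, add_zero] at g
      exact (mul_eq_zero.1 g).resolve_left (mul_ne_zero three_ne_zero (pow_ne_zero 2 h0))
  exact cot_zero h hΨ.1 ⟨f3, r3⟩ ⟨r1, by rw [← r5]; exact f3⟩ ⟨f2, r4⟩
    ⟨r2, by rw [← r6]; exact f2⟩ ⟨f0, f1⟩

theorem con_Sig_le₂ [Infinite K] {L : Submodule K (Fin 7 → K)} (hL : L ∈ S0 K) :
    Module.finrank K (Con 2 (Sig K) L) ≤ 2 := by
  obtain ⟨m, h, h1, h2, rfl⟩ := hL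
  refine finrank_le_of_inj ![co K 0 6, co K 1 6] fun Ψ hΨ hf => ?_
  obtain ⟨r1, r2, r3, r4, r5, r6⟩ := con_rel (fun x y hx hy g1 g2 =>
    tan_line (s := 0) h (by rw [h1]; ring) (by rw [h2]; ring) hx hy g1 g2) hΨ
  have f0 : Ψ (e K 6) 0 = 0 := hf 0
  have f1 : Ψ (e K 6) 1 = 0 := hf 1
  have f3 : Ψ (e K 2) 0 = 0 := by
    have g := hΨ.2 _ (tan_cusp h h1 h2).2
    rw [trace_Ph, map_zero, Pi.zero_apply, add_zero] at g
    have g2 : (![0, 0, 1, 0, 0, 0, 0] : Fin 7 → K) = e K 2 := by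
      funext j
      fin_cases j <;> simp [e]
    rwa [g2] at g
  have f2 : Ψ (e K 4) 0 = 0 := by
    have g := hΨ.2 _ (tan_cusp h h1 h2).1
    rw [trace_Ph, map_zero, Pi.zero_apply, add_zero] at g
    have g2 : (![0, 0, 0, 0, 1, 0, 0] : Fin 7 → K) = e K 4 := by
      funext j
      fin_cases j <;> simp [e]
    rwa [g2] at g
  exact cot_zero h hΨ.1 ⟨f3, r3⟩ ⟨r1, by rw [← r5]; exact f3⟩ ⟨f2, r4⟩
    ⟨r2, by rw [← r6]; exact f2⟩ ⟨f0, f1⟩

theorem con_SS_le [Infinite K] {L : Submodule K (Fin 7 → K)} (hL : L ∈ S0 K) :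
    Module.finrank K (Con 2 (SS K) L) ≤ 4 := by
  obtain ⟨m, h, h1, h2, rfl⟩ := hL
  refine finrank_le_of_inj ![co K 0 6, co K 1 6, co K 0 4, co K 0 2] fun Ψ hΨ hf => ?_
  obtain ⟨r1, r2, r3, r4, r5, r6⟩ := con_rel (fun x y hx hy g1 g2 =>
    tan_line' h h1 h2 hx hy g1 g2) hΨ
  have f0 : Ψ (e K 6) 0 = 0 := hf 0
  have f1 : Ψ (e K 6) 1 = 0 := hf 1
  have f2 : Ψ (e K 4) 0 = 0 := hf 2
  have f3 : Ψ (e K 2) 0 = 0 := hf 3
  exact cot_zero h hΨ.1 ⟨f3, r3⟩ ⟨r1, by rw [← r5]; exact f3⟩ ⟨f2, r4⟩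
    ⟨r2, by rw [← r6]; exact f2⟩ ⟨f0, f1⟩

theorem Sig_dim3 [Infinite K] [CharZero K] {L : Submodule K (Fin 7 → K)} (hL : L ∈ Sig K) :
    Module.finrank K (Con 2 (Sig K) L) ≤ 3 :=
  semi (subset_cl Sig0_dim) (fun _ h => con_Sig_le h) hL

theorem Sig_dim2 [Infinite K] {L : Submodule K (Fin 7 → K)} (hL : L ∈ SS K) :
    Module.finrank K (Con 2 (Sig K) L) ≤ 2 :=
  semi (fun _ h => subset_cl Sig0_dim (S0_sub h)) (fun _ h => con_Sig_le₂ h) hL

theorem SS_dim4 [Infinite K] {L : Submodule K (Fin 7 → K)} (hL : L ∈ SS K) :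
    Module.finrank K (Con 2 (SS K) L) ≤ 4 :=
  semi (subset_cl S0_dim) (fun _ h => con_SS_le h) hL

/-! ### Conormal vectors from equations -/

/-- the linear form `x₆` -/
noncomputable abbrev hh (K : Type) [Field K] : Module.Dual K (Fin 7 → K) := LinearMap.proj 6

/-- the linear form `xⱼ` as a polynomial in the vector `i` -/
noncomputable abbrev xx (K : Type) [Field K] (i : Fin 2) (j : Fin 7) : Pol K (Fin 7 → K) 2 :=
  X (i, (LinearMap.proj j : (Fin 7 → K) →ₗ[K] K))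

/-- the Pluecker coordinate -/
noncomputable def pp (K : Type) [Field K] (i j : Fin 7) : Pol K (Fin 7 → K) 2 :=
  xx K 0 i * xx K 1 j - xx K 0 j * xx K 1 i

theorem val_xx (m : Fin 2 → Fin 7 → K) (i : Fin 2) (j : Fin 7) : val m (xx K i j) = m i j :=
  val_X _ _

theorem dif_xx (m m' : Fin 2 → Fin 7 → K) (i : Fin 2) (j : Fin 7) : dif m m' (xx K i j) = m' i j :=
  dif_X _ _ _

theorem val_pp (m : Fin 2 → Fin 7 → K) (i j : Fin 7) :
    val m (pp K i j) = m 0 i * m 1 j - m 0 j * m 1 i := by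
  rw [pp, val_sub, val_mul, val_mul, val_xx, val_xx, val_xx, val_xx]

theorem dif_pp (m m' : Fin 2 → Fin 7 → K) (i j : Fin 7) : dif m m' (pp K i j) =
    m 0 i * m' 1 j + m 1 j * m' 0 i - (m 0 j * m' 1 i + m 1 i * m' 0 j) := by
  rw [pp, dif_sub, dif_mul, dif_mul, val_xx, val_xx, val_xx, val_xx, dif_xx, dif_xx, dif_xx, dif_xx]

/-- the action of a matrix on the Pluecker coordinates -/
theorem val_pp_act (g : Matrix (Fin 2) (Fin 2) K) (m : Fin 2 → Fin 7 → K) (i j : Fin 7) :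
    val (act g m) (pp K i j) = (g 0 0 * g 1 1 - g 0 1 * g 1 0) * val m (pp K i j) := by
  rw [val_pp, val_pp]
  simp only [act, Fin.sum_univ_two, Pi.add_apply, Pi.smul_apply, smul_eq_mul]
  ring

noncomputable def AA (K : Type) [Field K] : Pol K (Fin 7 → K) 2 := pp K 0 3 - pp K 1 2
noncomputable def BB (K : Type) [Field K] : Pol K (Fin 7 → K) 2 := pp K 0 5 - pp K 1 4
noncomputable def DD (K : Type) [Field K] : Pol K (Fin 7 → K) 2 := pp K 0 1
noncomputable def FF (K : Type) [Field K] : Pol K (Fin 7 → K) 2 := AA K ^ 2 * DD K - BB K ^ 3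

theorem val_AA {m : Fin 2 → Fin 7 → K} (h : Ch m) : val m (AA K) = m 0 2 + m 1 3 := by
  obtain ⟨h1, h2, h3, h4, h5, h6⟩ := h
  rw [AA, val_sub, val_pp, val_pp, h1, h2, h3, h4]; ring

theorem val_BB {m : Fin 2 → Fin 7 → K} (h : Ch m) : val m (BB K) = m 0 4 + m 1 5 := by
  obtain ⟨h1, h2, h3, h4, h5, h6⟩ := h
  rw [BB, val_sub, val_pp, val_pp, h1, h2, h3, h4]; ring

theorem val_DD {m : Fin 2 → Fin 7 → K} (h : Ch m) : val m (DD K) = 1 := by
  obtain ⟨h1, h2, h3, h4, h5, h6⟩ := h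
  rw [DD, val_pp, h1, h2, h3, h4]; ring

theorem val_FF {m : Fin 2 → Fin 7 → K} (h : Ch m) :
    val m (FF K) = (m 0 2 + m 1 3) ^ 2 - (m 0 4 + m 1 5) ^ 3 := by
  rw [FF, val_sub, val_mul, val_pow, val_pow, val_AA h, val_BB h, val_DD h, mul_one]

theorem val_act (g : Matrix (Fin 2) (Fin 2) K) (m : Fin 2 → Fin 7 → K) :
    val (act g m) (AA K) = (g 0 0 * g 1 1 - g 0 1 * g 1 0) * val m (AA K) ∧
    val (act g m) (BB K) = (g 0 0 * g 1 1 - g 0 1 * g 1 0) * val m (BB K) ∧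
    val (act g m) (DD K) = (g 0 0 * g 1 1 - g 0 1 * g 1 0) * val m (DD K) ∧
    val (act g m) (FF K) = (g 0 0 * g 1 1 - g 0 1 * g 1 0) ^ 3 * val m (FF K) := by
  have hA : val (act g m) (AA K) = (g 0 0 * g 1 1 - g 0 1 * g 1 0) * val m (AA K) := by
    rw [AA, val_sub, val_sub, val_pp_act, val_pp_act]; ring
  have hB : val (act g m) (BB K) = (g 0 0 * g 1 1 - g 0 1 * g 1 0) * val m (BB K) := by
    rw [BB, val_sub, val_sub, val_pp_act, val_pp_act]; ring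
  have hD : val (act g m) (DD K) = (g 0 0 * g 1 1 - g 0 1 * g 1 0) * val m (DD K) := by
    rw [DD, val_pp_act]
  refine ⟨hA, hB, hD, ?_⟩
  rw [FF, val_sub, val_sub, val_mul, val_mul, val_pow, val_pow, val_pow, val_pow, hA, hB, hD]
  ring

theorem FF_ideal : FF K ∈ Ideal' 2 (Sig K) := by
  refine ideal_le ?_
  rintro L ⟨m, s, h, h1, h2, rfl⟩ m' hm'
  obtain ⟨g, g', hg, -, -, -⟩ := exists_gl h.bas hm'
  rw [hg, (val_act g m).2.2.2, val_FF h, h1, h2]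
  ring

theorem hh_ideal (i : Fin 2) : xx K i 6 ∈ Ideal' 2 (Sig K) := by
  refine ideal_le ?_
  rintro L ⟨m, s, h, h1, h2, rfl⟩ m' hm'
  obtain ⟨g, g', hg, -, -, -⟩ := exists_gl h.bas hm'
  obtain ⟨-, -, -, -, h5, h6⟩ := h
  rw [hg, val_xx]
  simp only [act, Fin.sum_univ_two, Pi.add_apply, Pi.smul_apply, smul_eq_mul, h5, h6, mul_zero,
    add_zero]

theorem SS_sub : SS K ⊆ Sig K := cl_mono S0_sub

theorem AA_ideal : AA K ∈ Ideal' 2 (SS K) := by
  refine ideal_le ?_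
  rintro L ⟨m, h, h1, h2, rfl⟩ m' hm'
  obtain ⟨g, g', hg, -, -, -⟩ := exists_gl h.bas hm'
  rw [hg, (val_act g m).1, val_AA h, h1, mul_zero]

theorem BB_ideal : BB K ∈ Ideal' 2 (SS K) := by
  refine ideal_le ?_
  rintro L ⟨m, h, h1, h2, rfl⟩ m' hm'
  obtain ⟨g, g', hg, -, -, -⟩ := exists_gl h.bas hm'
  rw [hg, (val_act g m).2.1, val_BB h, h2, mul_zero]

end Pool.Agent.Helper37K9.CO
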