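import Mathlib

set_option autoImplicit false

/-!
# Coisotropic subvarieties of Grassmannians: definitions

`W` is a finite dimensional vector space over the algebraically closed field `K`. The points of the
Grassmannian `Gr(k, W)` are the subspaces `L` of `W` of dimension `k`. Polynomials are evaluated at
the bases of `L`: these are the points of the space of all linearly independent `k`-tuples of vectors
of `W` which lie over `L`; the Grassmannian is the quotient of this space by `GL_k`.
-/

namespace Pool.Agent.Helper37K9.CO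

open MvPolynomial

variable {K : Type} [Field K] {W : Type} [AddCommGroup W] [Module K W]

/-- Polynomial functions of `k` vectors of `W`: the variable `(i, ξ)` is the value of the linear form
`ξ` at the `i`-th vector. -/
abbrev Pol (K W : Type) [Field K] [AddCommGroup W] [Module K W] (k : ℕ) : Type :=
  MvPolynomial (Fin k × Module.Dual K W) K

/-- The value of `F` at the vectors `m 0, …, m (k - 1)`. -/
noncomputable def val {k : ℕ} (m : Fin k → W) (F : Pol K W k) : K :=
  eval (fun x => x.2 (m x.1)) F

/-- The derivative of `F` at `m` in the direction `m'`. -/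
noncomputable def dif {k : ℕ} (m m' : Fin k → W) (F : Pol K W k) : K :=
  val m (mkDerivation K (fun x : Fin k × Module.Dual K W => (C (x.2 (m' x.1)) : Pol K W k)) F)

/-- `m` is a basis of `L`. -/
def IsBas {k : ℕ} (m : Fin k → W) (L : Submodule K W) : Prop :=
  LinearIndependent K m ∧ Submodule.span K (Set.range m) = L

/-- `F` vanishes at the point `L` of the Grassmannian: at all bases of `L`. -/
def Van {k : ℕ} (F : Pol K W k) (L : Submodule K W) : Prop :=
  ∀ m, IsBas m L → val m F = 0

/-- The ideal of `Z`: the polynomials which vanish at all points of `Z`. -/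
def Ideal' (k : ℕ) (Z : Set (Submodule K W)) : Set (Pol K W k) := {F | ∀ L ∈ Z, Van F L}

/-- The Zariski closure of `Z` in the Grassmannian `Gr(k, W)`. -/
def cl (k : ℕ) (Z : Set (Submodule K W)) : Set (Submodule K W) :=
  {L | Module.finrank K L = k ∧ ∀ F ∈ Ideal' k Z, Van F L}

/-- `Z` is an irreducible closed subvariety of `Gr(k, W)`. -/
def IsVar (k : ℕ) (Z : Set (Submodule K W)) : Prop :=
  cl k Z = Z ∧ Z.Nonempty ∧ ∀ Z₁ Z₂ : Set (Submodule K W), cl k Z₁ = Z₁ → cl k Z₂ = Z₂ →
    Z ⊆ Z₁ ∪ Z₂ → Z ⊆ Z₁ ∨ Z ⊆ Z₂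

/-- The Zariski tangent space of `Z` at `L`. A tangent vector of `Gr(k, W)` at `L` is a linear map
`L → W / L`, and it is given by an endomorphism `Φ` of `W` (the movement `(1 + εΦ) L` of `L`), which
is unique up to endomorphisms that map `L` to `L`. It is tangent to `Z` if for all `F` which vanish on
`Z` the derivative in this direction is zero, for all bases of `L`. -/
def Tan (k : ℕ) (Z : Set (Submodule K W)) (L : Submodule K W) : Set (W →ₗ[K] W) :=
  {Φ | ∀ F ∈ Ideal' k Z, ∀ m, IsBas m L → dif m (fun i => Φ (m i)) F = 0}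

/-- `Hom(W / L, L)`, the cotangent space of the Grassmannian at `L`: the endomorphisms of `W` which
vanish on `L` and have their image in `L`. -/
def Cot (L : Submodule K W) : Submodule K (W →ₗ[K] W) where
  carrier := {Ψ | L ≤ LinearMap.ker Ψ ∧ LinearMap.range Ψ ≤ L}
  add_mem' := by
    rintro a b ⟨h1, h2⟩ ⟨h3, h4⟩
    refine ⟨fun x hx => ?_, ?_⟩
    · rw [LinearMap.mem_ker, LinearMap.add_apply, LinearMap.mem_ker.1 (h1 hx),
        LinearMap.mem_ker.1 (h3 hx), add_zero]
    · rintro _ ⟨x, rfl⟩
      exact L.add_mem (h2 ⟨x, rfl⟩) (h4 ⟨x, rfl⟩)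
  zero_mem' := by
    refine ⟨fun x _ => rfl, ?_⟩
    rintro _ ⟨x, rfl⟩
    exact L.zero_mem
  smul_mem' := by
    rintro c a ⟨h1, h2⟩
    refine ⟨fun x hx => ?_, ?_⟩
    · rw [LinearMap.mem_ker, LinearMap.smul_apply, LinearMap.mem_ker.1 (h1 hx), smul_zero]
    · rintro _ ⟨x, rfl⟩
      exact L.smul_mem c (h2 ⟨x, rfl⟩)

/-- The conormal space of `Z` at `L`: the annihilator in `Hom(W / L, L)` of the tangent space for the
pairing `tr (Ψ Φ)`. -/
noncomputable def Con (k : ℕ) (Z : Set (Submodule K W)) (L : Submodule K W) :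
    Submodule K (W →ₗ[K] W) where
  carrier := {Ψ | Ψ ∈ Cot L ∧ ∀ Φ ∈ Tan k Z L, LinearMap.trace K W (Ψ ∘ₗ Φ) = 0}
  add_mem' := by
    rintro a b ⟨h1, h2⟩ ⟨h3, h4⟩
    refine ⟨(Cot L).add_mem h1 h3, fun Φ hΦ => ?_⟩
    rw [LinearMap.add_comp, map_add, h2 Φ hΦ, h4 Φ hΦ, add_zero]
  zero_mem' := by
    refine ⟨(Cot L).zero_mem, fun Φ _ => ?_⟩
    rw [LinearMap.zero_comp, map_zero]
  smul_mem' := by
    rintro c a ⟨h1, h2⟩
    refine ⟨(Cot L).smul_mem c h1, fun Φ hΦ => ?_⟩
    rw [LinearMap.smul_comp, map_smul, h2 Φ hΦ, smul_zero]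

/-- `L` is a smooth point of the variety `Z`: the dimension of the tangent space of `Z` at `L` is as
small as possible (then it is the dimension of `Z`), that is, the dimension of the conormal space is
as large as possible (then it is the codimension of `Z`). -/
def Smooth (k : ℕ) (Z : Set (Submodule K W)) (L : Submodule K W) : Prop :=
  L ∈ Z ∧ ∀ L' ∈ Z, Module.finrank K (Con k Z L') ≤ Module.finrank K (Con k Z L)

/-- The singular locus of the variety `Z`. -/
def Sing (k : ℕ) (Z : Set (Submodule K W)) : Set (Submodule K W) := {L ∈ Z | ¬Smooth k Z L}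

/-- `S` is an irreducible component of the closed set `T`. -/
def IsComp (k : ℕ) (S T : Set (Submodule K W)) : Prop :=
  IsVar k S ∧ S ⊆ T ∧ ∀ S', IsVar k S' → S ⊆ S' → S' ⊆ T → S' = S

/-- The `c`-dimensional subspaces of `Hom(W / L, L)` which are spanned by homomorphisms of rank
one. -/
def RankOne (c : ℕ) (L : Submodule K W) : Set (Submodule K (W →ₗ[K] W)) :=
  {U | U ≤ Cot L ∧ Module.finrank K U = c ∧ ∃ S : Set (W →ₗ[K] W),
    (∀ Ψ ∈ S, Module.finrank K (LinearMap.range Ψ) = 1) ∧ Submodule.span K S = U}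

/-- The variety `Z` is coisotropic: at every smooth point `L` the conormal space lies in the Zariski
closure (in the Grassmannian of `c`-dimensional subspaces, `c` the codimension of `Z`) of the set of
the subspaces of `Hom(W / L, L)` which are spanned by homomorphisms of rank one. -/
def Coisotropic (k : ℕ) (Z : Set (Submodule K W)) : Prop :=
  ∀ L, Smooth k Z L → Con k Z L ∈
    cl (Module.finrank K (Con k Z L)) (RankOne (Module.finrank K (Con k Z L)) L)

end Pool.Agent.Helper37K9.CO
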