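import Pool.Agent.Helper37K9.CO.Conor

set_option autoImplicit false

namespace Pool.Agent.Helper37K9.CO

open MvPolynomial

variable {K : Type} [Field K]

/-- the linear form `x₆` vanishes on the points of the variety -/
theorem hh_zero {Z : Set (Submodule K (Fin 7 → K))} (hZ : ∀ i, xx K i 6 ∈ Ideal' 2 Z)
    {L : Submodule K (Fin 7 → K)} (hL : L ∈ Z) {m : Fin 2 → Fin 7 → K} (hm : IsBas m L) :
    ∀ x ∈ L, hh K x = 0 := by
  intro x hx
  rw [← hm.2] at hx
  obtain ⟨c, rfl⟩ := (Submodule.mem_span_range_iff_exists_fun K).1 hx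
  have h0 : ∀ i, m i 6 = 0 := fun i => by
    have := hZ i L hL m hm
    rwa [val_xx] at this
  rw [map_sum]
  refine Finset.sum_eq_zero fun i _ => ?_
  rw [map_smul]
  change c i * m i 6 = 0
  rw [h0, mul_zero]

/-- the conormal vectors of the hyperplane -/
theorem hh_con {Z : Set (Submodule K (Fin 7 → K))} (hZ : ∀ i, xx K i 6 ∈ Ideal' 2 Z)
    {L : Submodule K (Fin 7 → K)} (hL : L ∈ Z) {m : Fin 2 → Fin 7 → K} (hm : IsBas m L)
    (i : Fin 2) : (hh K).smulRight (m i) ∈ Con 2 Z L := by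
  have h0 := hh_zero hZ hL hm
  refine ⟨⟨fun x hx => ?_, ?_⟩, fun Φ hΦ => ?_⟩
  · rw [LinearMap.mem_ker, LinearMap.smulRight_apply, h0 x hx, zero_smul]
  · rintro _ ⟨x, rfl⟩
    rw [LinearMap.smulRight_apply]
    refine L.smul_mem _ ?_
    rw [← hm.2]
    exact Submodule.subset_span ⟨i, rfl⟩
  · have h1 : (hh K).smulRight (m i) ∘ₗ Φ = (hh K ∘ₗ Φ).smulRight (m i) := rfl
    rw [h1, LinearMap.trace_smulRight]
    have h2 := hΦ _ (hZ i) m hm
    rwa [dif_xx] at h2

/-- a linear form which vanishes on the span of `m` -/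
noncomputable def cc (m : Fin 2 → Fin 7 → K) (j : Fin 7) : Module.Dual K (Fin 7 → K) :=
  LinearMap.proj j - m 0 j • LinearMap.proj 0 - m 1 j • LinearMap.proj 1

theorem cc_apply (m : Fin 2 → Fin 7 → K) (j : Fin 7) (x : Fin 7 → K) :
    cc m j x = x j - m 0 j * x 0 - m 1 j * x 1 := rfl

theorem cc_zero {m : Fin 2 → Fin 7 → K} (h : Ch m) (j : Fin 7) :
    ∀ x ∈ Submodule.span K (Set.range m), cc m j x = 0 := by
  intro x hx
  rw [cc_apply]
  have h1 := congrFun (h.mem hx) j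
  change x j = x 0 * m 0 j + x 1 * m 1 j at h1
  rw [h1]; ring

/-- `c_j ⊗ m₀ + c_l ⊗ m₁` -/
noncomputable def ps (m : Fin 2 → Fin 7 → K) (j l : Fin 7) : (Fin 7 → K) →ₗ[K] (Fin 7 → K) :=
  (cc m j).smulRight (m 0) + (cc m l).smulRight (m 1)

theorem ps_apply (m : Fin 2 → Fin 7 → K) (j l : Fin 7) (x : Fin 7 → K) :
    ps m j l x = cc m j x • m 0 + cc m l x • m 1 := rfl

theorem ps_cot {m : Fin 2 → Fin 7 → K} (h : Ch m) (j l : Fin 7) :
    ps m j l ∈ Cot (Submodule.span K (Set.range m)) := by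
  constructor
  · intro x hx
    rw [LinearMap.mem_ker, ps_apply, cc_zero h j x hx, cc_zero h l x hx, zero_smul, zero_smul,
      add_zero]
  · rintro _ ⟨x, rfl⟩
    exact Submodule.add_mem _ (Submodule.smul_mem _ _ (Submodule.subset_span ⟨0, rfl⟩))
      (Submodule.smul_mem _ _ (Submodule.subset_span ⟨1, rfl⟩))

theorem ps_trace (m : Fin 2 → Fin 7 → K) (j l : Fin 7) (Φ : (Fin 7 → K) →ₗ[K] (Fin 7 → K)) :
    LinearMap.trace K _ (ps m j l ∘ₗ Φ) = cc m j (Φ (m 0)) + cc m l (Φ (m 1)) := by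
  have h1 : ps m j l ∘ₗ Φ = (cc m j ∘ₗ Φ).smulRight (m 0) + (cc m l ∘ₗ Φ).smulRight (m 1) := rfl
  rw [h1, map_add, LinearMap.trace_smulRight, LinearMap.trace_smulRight]
  rfl

theorem dif_AA {m : Fin 2 → Fin 7 → K} (h : Ch m) (m' : Fin 2 → Fin 7 → K) :
    dif m m' (AA K) = cc m 2 (m' 0) + cc m 3 (m' 1) +
      (m' 0 0 + m' 1 1) * (m 0 2 + m 1 3) := by
  obtain ⟨h1, h2, h3, h4, h5, h6⟩ := h
  rw [AA, dif_sub, dif_pp, dif_pp, cc_apply, cc_apply, h1, h2, h3, h4]; ring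

theorem dif_BB {m : Fin 2 → Fin 7 → K} (h : Ch m) (m' : Fin 2 → Fin 7 → K) :
    dif m m' (BB K) = cc m 4 (m' 0) + cc m 5 (m' 1) +
      (m' 0 0 + m' 1 1) * (m 0 4 + m 1 5) := by
  obtain ⟨h1, h2, h3, h4, h5, h6⟩ := h
  rw [BB, dif_sub, dif_pp, dif_pp, cc_apply, cc_apply, h1, h2, h3, h4]; ring

theorem dif_DD {m : Fin 2 → Fin 7 → K} (h : Ch m) (m' : Fin 2 → Fin 7 → K) :
    dif m m' (DD K) = m' 0 0 + m' 1 1 := by
  obtain ⟨h1, h2, h3, h4, h5, h6⟩ := h
  rw [DD, dif_pp, h1, h2, h3, h4]; ring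

theorem dif_FF {m : Fin 2 → Fin 7 → K} (h : Ch m) {s : K} (h1 : m 0 2 + m 1 3 = s ^ 3)
    (h2 : m 0 4 + m 1 5 = s ^ 2) (m' : Fin 2 → Fin 7 → K) :
    dif m m' (FF K) = s ^ 3 * (2 * (cc m 2 (m' 0) + cc m 3 (m' 1)) -
      3 * s * (cc m 4 (m' 0) + cc m 5 (m' 1))) := by
  have e2 : FF K = AA K * AA K * DD K - BB K * BB K * BB K := by rw [FF]; ring
  rw [e2, dif_sub, dif_mul, dif_mul, dif_mul, dif_mul, val_mul, val_mul, dif_AA h, dif_BB h,
    dif_DD h, val_AA h, val_BB h, val_DD h, h1, h2]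
  ring

/-- the third conormal vector of the hypersurface -/
noncomputable def th (m : Fin 2 → Fin 7 → K) (s : K) : (Fin 7 → K) →ₗ[K] (Fin 7 → K) :=
  (2 : K) • ps m 2 3 - (3 * s) • ps m 4 5

theorem th_apply (m : Fin 2 → Fin 7 → K) (s : K) (x : Fin 7 → K) :
    th m s x = (2 : K) • ps m 2 3 x - (3 * s) • ps m 4 5 x := rfl

theorem th_con {m : Fin 2 → Fin 7 → K} (h : Ch m) {s : K} (h1 : m 0 2 + m 1 3 = s ^ 3)
    (h2 : m 0 4 + m 1 5 = s ^ 2) (hs : s ≠ 0) :
    th m s ∈ Con 2 (Sig K) (Submodule.span K (Set.range m)) := by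
  refine ⟨Submodule.sub_mem _ (Submodule.smul_mem _ _ (ps_cot h 2 3))
    (Submodule.smul_mem _ _ (ps_cot h 4 5)), fun Φ hΦ => ?_⟩
  have h3 := hΦ _ FF_ideal m h.bas
  rw [dif_FF h h1 h2] at h3
  rw [th, LinearMap.sub_comp, LinearMap.smul_comp, LinearMap.smul_comp, map_sub, map_smul, map_smul,
    ps_trace, ps_trace, smul_eq_mul, smul_eq_mul]
  exact (mul_eq_zero.1 h3).resolve_left (pow_ne_zero 3 hs)

theorem AA_con {m : Fin 2 → Fin 7 → K} (h : Ch m) (h1 : m 0 2 + m 1 3 = 0) :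
    ps m 2 3 ∈ Con 2 (SS K) (Submodule.span K (Set.range m)) := by
  refine ⟨ps_cot h 2 3, fun Φ hΦ => ?_⟩
  have h3 := hΦ _ AA_ideal m h.bas
  rwa [dif_AA h, h1, mul_zero, add_zero, ← ps_trace] at h3

theorem BB_con {m : Fin 2 → Fin 7 → K} (h : Ch m) (h1 : m 0 4 + m 1 5 = 0) :
    ps m 4 5 ∈ Con 2 (SS K) (Submodule.span K (Set.range m)) := by
  refine ⟨ps_cot h 4 5, fun Φ hΦ => ?_⟩
  have h3 := hΦ _ BB_ideal m h.bas
  rwa [dif_BB h, h1, mul_zero, add_zero, ← ps_trace] at h3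

theorem ps_e_same {m : Fin 2 → Fin 7 → K} {j l : Fin 7} (h0 : j ≠ 0) (h1 : j ≠ 1) (h2 : l ≠ j) :
    ps m j l (e K j) = m 0 := by
  rw [ps_apply, cc_apply, cc_apply]
  simp [e, Pi.single_apply, h0.symm, h1.symm, h2]

theorem ps_e_ne {m : Fin 2 → Fin 7 → K} {j l a : Fin 7} (h0 : a ≠ 0) (h1 : a ≠ 1) (h2 : j ≠ a)
    (h3 : l ≠ a) : ps m j l (e K a) = 0 := by
  rw [ps_apply, cc_apply, cc_apply]
  simp [e, Pi.single_apply, h0.symm, h1.symm, h2, h3]

/-- the smooth points in the chart -/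
theorem three_le [CharZero K] {m : Fin 2 → Fin 7 → K} (h : Ch m) {s : K}
    (h1 : m 0 2 + m 1 3 = s ^ 3) (h2 : m 0 4 + m 1 5 = s ^ 2) (hs : s ≠ 0) :
    3 ≤ Module.finrank K (Con 2 (Sig K) (Submodule.span K (Set.range m))) := by
  have hL : Submodule.span K (Set.range m) ∈ Sig K :=
    subset_cl Sig0_dim ⟨m, s, h, h1, h2, rfl⟩
  refine le_finrank_of_li ![(hh K).smulRight (m 0), (hh K).smulRight (m 1), th m s] ?_ ?_
  · intro i
    fin_cases i
    · exact hh_con hh_ideal hL h.bas 0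
    · exact hh_con hh_ideal hL h.bas 1
    · exact th_con h h1 h2 hs
  · rw [Fintype.linearIndependent_iff]
    intro c hc
    rw [Fin.sum_univ_three] at hc
    change c 0 • (hh K).smulRight (m 0) + c 1 • (hh K).smulRight (m 1) + c 2 • th m s = 0 at hc
    have h6 := LinearMap.congr_fun hc (e K 6)
    have h2' := LinearMap.congr_fun hc (e K 2)
    simp only [LinearMap.add_apply, LinearMap.smul_apply, LinearMap.smulRight_apply, th_apply,
      LinearMap.zero_apply, LinearMap.proj_apply] at h6 h2'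
    rw [ps_e_ne (by decide) (by decide) (by decide) (by decide),
      ps_e_ne (by decide) (by decide) (by decide) (by decide)] at h6
    rw [ps_e_same (by decide) (by decide) (by decide),
      ps_e_ne (by decide) (by decide) (by decide) (by decide)] at h2'
    have o6 : e K 6 6 = 1 := Pi.single_eq_same 6 1
    have z6 : e K 2 6 = 0 := Pi.single_eq_of_ne (by decide) 1
    rw [o6] at h6
    rw [z6] at h2'
    obtain ⟨g1, g2, g3, g4, -, -⟩ := h
    have a0 := congrFun h6 0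
    have a1 := congrFun h6 1
    have a2 := congrFun h2' 0
    simp only [Pi.add_apply, Pi.smul_apply, Pi.sub_apply, smul_eq_mul, g1, g2, g3, g4, Pi.zero_apply,
      mul_one, one_mul, mul_zero, zero_mul, add_zero, zero_add, sub_zero] at a0 a1 a2
    have a3 : c 2 = 0 := (mul_eq_zero.1 a2).resolve_right two_ne_zero
    intro i
    fin_cases i
    · exact a0
    · exact a1
    · exact a3

theorem four_le {m : Fin 2 → Fin 7 → K} (h : Ch m)
    (h1 : m 0 2 + m 1 3 = 0) (h2 : m 0 4 + m 1 5 = 0) :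
    (∀ i, ![(hh K).smulRight (m 0), (hh K).smulRight (m 1), ps m 2 3, ps m 4 5] i ∈
      Con 2 (SS K) (Submodule.span K (Set.range m))) ∧
    LinearIndependent K ![(hh K).smulRight (m 0), (hh K).smulRight (m 1), ps m 2 3, ps m 4 5] := by
  have hL : Submodule.span K (Set.range m) ∈ SS K :=
    subset_cl S0_dim ⟨m, h, h1, h2, rfl⟩
  constructor
  · intro i
    fin_cases i
    · exact hh_con (fun i => ideal_anti SS_sub (hh_ideal i)) hL h.bas 0
    · exact hh_con (fun i => ideal_anti SS_sub (hh_ideal i)) hL h.bas 1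
    · exact AA_con h h1
    · exact BB_con h h2
  · rw [Fintype.linearIndependent_iff]
    intro c hc
    rw [Fin.sum_univ_four] at hc
    change c 0 • (hh K).smulRight (m 0) + c 1 • (hh K).smulRight (m 1) + c 2 • ps m 2 3 +
      c 3 • ps m 4 5 = 0 at hc
    have h6 := LinearMap.congr_fun hc (e K 6)
    have h2' := LinearMap.congr_fun hc (e K 2)
    have h4' := LinearMap.congr_fun hc (e K 4)
    simp only [LinearMap.add_apply, LinearMap.smul_apply, LinearMap.smulRight_apply,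
      LinearMap.zero_apply, LinearMap.proj_apply] at h6 h2' h4'
    rw [ps_e_ne (by decide) (by decide) (by decide) (by decide),
      ps_e_ne (by decide) (by decide) (by decide) (by decide)] at h6
    rw [ps_e_same (by decide) (by decide) (by decide),
      ps_e_ne (by decide) (by decide) (by decide) (by decide)] at h2'
    rw [ps_e_ne (by decide) (by decide) (by decide) (by decide),
      ps_e_same (by decide) (by decide) (by decide)] at h4'
    have o6 : e K 6 6 = 1 := Pi.single_eq_same 6 1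
    have z6 : e K 2 6 = 0 := Pi.single_eq_of_ne (by decide) 1
    have z6' : e K 4 6 = 0 := Pi.single_eq_of_ne (by decide) 1
    rw [o6] at h6
    rw [z6] at h2'
    rw [z6'] at h4'
    obtain ⟨g1, g2, g3, g4, -, -⟩ := h
    have a0 := congrFun h6 0
    have a1 := congrFun h6 1
    have a2 := congrFun h2' 0
    have a3 := congrFun h4' 0
    simp only [Pi.add_apply, Pi.smul_apply, smul_eq_mul, g1, g2, g3, g4, Pi.zero_apply,
      mul_one, one_mul, mul_zero, zero_mul, add_zero, zero_add] at a0 a1 a2 a3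
    intro i
    fin_cases i
    · exact a0
    · exact a1
    · exact a2
    · exact a3

end Pool.Agent.Helper37K9.CO
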