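import Pool.Agent.Helper37K9.CO.Coiso

set_option autoImplicit false

namespace Pool.Agent.Helper37K9.CO

open MvPolynomial

section General

variable {K : Type} [Field K] {W : Type} [AddCommGroup W] [Module K W]

theorem exists_rank_one {R : W →ₗ[K] W} (h : Module.finrank K (LinearMap.range R) = 1) :
    ∃ (ξ : Module.Dual K W) (v : W), R = ξ.smulRight v := by
  obtain ⟨⟨v, hv⟩, hv0, hall⟩ := finrank_eq_one_iff'.1 h
  have hv1 : v ≠ 0 := fun h0 => hv0 (Subtype.ext h0)
  obtain ⟨μ, hμ⟩ := Module.Projective.exists_dual_eq_one K hv1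
  refine ⟨μ ∘ₗ R, v, LinearMap.ext fun x => ?_⟩
  obtain ⟨c, hc⟩ := hall ⟨R x, ⟨x, rfl⟩⟩
  have h1 : c • v = R x := congrArg Subtype.val hc
  rw [LinearMap.smulRight_apply, LinearMap.comp_apply, ← h1, map_smul, hμ, smul_eq_mul, mul_one]

/-- the right span of a space which is spanned by `c` homomorphisms of rank one -/
theorem right_span [FiniteDimensional K W] {c : ℕ} {L : Submodule K W}
    {U : Submodule K (W →ₗ[K] W)} (hU : U ∈ RankOne c L) :
    ∃ N : Submodule K (Module.Dual K W), Module.finrank K N ≤ c ∧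
      ∀ Ψ ∈ U, ∀ μ : Module.Dual K W, μ ∘ₗ Ψ ∈ N := by
  obtain ⟨-, hc, S, hS, rfl⟩ := hU
  obtain ⟨b, hb, hspan, hb2⟩ := exists_linearIndependent K S
  have hfin : Finite b := hb2.finite
  have hft : Fintype b := Fintype.ofFinite b
  have hcard : Fintype.card b = c := by
    rw [← Set.toFinset_card, ← finrank_span_set_eq_card hb2, hspan]
    exact hc
  choose ξ v hξ using fun R : b => exists_rank_one (hS R.1 (hb R.2))
  refine ⟨Submodule.span K (Set.range ξ), ?_, ?_⟩
  · rw [← hcard]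
    exact finrank_range_le_card (R := K) ξ
  · intro Ψ hΨ μ
    rw [← hspan] at hΨ
    induction hΨ using Submodule.span_induction with
    | mem R hR =>
      have h1 : μ ∘ₗ R = μ (v ⟨R, hR⟩) • ξ ⟨R, hR⟩ := by
        refine LinearMap.ext fun x => ?_
        have h2 : R x = ξ ⟨R, hR⟩ x • v ⟨R, hR⟩ := LinearMap.congr_fun (hξ ⟨R, hR⟩) x
        rw [LinearMap.comp_apply, h2, map_smul, LinearMap.smul_apply, smul_eq_mul, smul_eq_mul,
          mul_comm]
      rw [h1]
      exact Submodule.smul_mem _ _ (Submodule.subset_span ⟨_, rfl⟩)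
    | zero => rw [LinearMap.comp_zero]; exact Submodule.zero_mem _
    | add x y _ _ hx hy => rw [LinearMap.comp_add]; exact Submodule.add_mem _ hx hy
    | smul a x _ hx => rw [LinearMap.comp_smul]; exact Submodule.smul_mem _ _ hx

end General

variable {K : Type} [Field K]

/-- the indices of the minor: the vector, the coordinate, the argument -/
def ir : Fin 5 → Fin 4 := ![0, 2, 2, 3, 3]
def lr : Fin 5 → Fin 7 := ![0, 0, 1, 0, 1]
def jr : Fin 5 → Fin 7 := ![6, 2, 3, 4, 5]

/-- the minor of order `5` of the right span -/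
noncomputable def PP (K : Type) [Field K] : Pol K ((Fin 7 → K) →ₗ[K] (Fin 7 → K)) 4 :=
  (Matrix.of fun a b : Fin 5 => (X (ir a, co K (lr a) (jr b)) :
    Pol K ((Fin 7 → K) →ₗ[K] (Fin 7 → K)) 4)).det

theorem val_PP (Ψ : Fin 4 → ((Fin 7 → K) →ₗ[K] (Fin 7 → K))) : val Ψ (PP K) =
    (Matrix.of fun a b : Fin 5 => Ψ (ir a) (e K (jr b)) (lr a)).det := by
  have h1 : val Ψ (PP K) = (eval (fun x : Fin 4 × Module.Dual K ((Fin 7 → K) →ₗ[K] (Fin 7 → K)) =>
    x.2 (Ψ x.1))) (PP K) := rfl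
  rw [h1, PP, RingHom.map_det]
  congr 1
  ext a b
  rw [RingHom.mapMatrix_apply, Matrix.map_apply, Matrix.of_apply, Matrix.of_apply, eval_X, co_apply]

/-- five functionals in a space of dimension at most four -/
theorem det_zero {N : Submodule K (Module.Dual K (Fin 7 → K))} (hN : Module.finrank K N ≤ 4)
    (η : Fin 5 → Module.Dual K (Fin 7 → K)) (hη : ∀ a, η a ∈ N) (x : Fin 5 → Fin 7 → K) :
    (Matrix.of fun a b : Fin 5 => η a (x b)).det = 0 := by
  have hdep : ¬ LinearIndependent K η := fun h => by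
    have h1 : LinearIndependent K (fun a => (⟨η a, hη a⟩ : N)) :=
      LinearIndependent.of_comp N.subtype h
    have := h1.fintype_card_le_finrank
    rw [Fintype.card_fin] at this
    omega
  rw [Fintype.not_linearIndependent_iff] at hdep
  obtain ⟨c, hc, i, hi⟩ := hdep
  refine Matrix.exists_vecMul_eq_zero_iff.1 ⟨c, fun h0 => hi (congrFun h0 i), ?_⟩
  funext b
  have h2 : (∑ a, c a • η a) (x b) = 0 := by rw [hc]; rfl
  rw [LinearMap.sum_apply] at h2
  exact h2

theorem PP_ideal (L : Submodule K (Fin 7 → K)) : PP K ∈ Ideal' 4 (RankOne 4 L) := by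
  intro U hU Ψ hΨ
  obtain ⟨N, hN, hall⟩ := right_span hU
  have hmem : ∀ i, Ψ i ∈ U := fun i => by rw [← hΨ.2]; exact Submodule.subset_span ⟨i, rfl⟩
  rw [val_PP]
  exact det_zero hN (fun a => (LinearMap.proj (lr a) : (Fin 7 → K) →ₗ[K] K) ∘ₗ Ψ (ir a))
    (fun a => hall _ (hmem _) _) fun b => e K (jr b)

theorem SS_not_coiso [Infinite K] : ¬ Coisotropic 2 (SS K) := by
  intro hco
  obtain ⟨hm, hli⟩ := four_le (mO_ch (K := K)) (add_zero _) (add_zero _)
  have h4 := le_finrank_of_li _ hm hli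
  have hL : Submodule.span K (Set.range (mO K)) ∈ SS K := subset_cl S0_dim mO_mem
  have hs : Smooth 2 (SS K) (Submodule.span K (Set.range (mO K))) :=
    ⟨hL, fun L' hL' => (SS_dim4 hL').trans h4⟩
  have hr : Module.finrank K (Con 2 (SS K) (Submodule.span K (Set.range (mO K)))) = 4 :=
    le_antisymm (SS_dim4 hL) h4
  have h1 := hco _ hs
  rw [hr] at h1
  have hB : IsBas ![(hh K).smulRight (mO K 0), (hh K).smulRight (mO K 1), ps (mO K) 2 3,
      ps (mO K) 4 5] (Con 2 (SS K) (Submodule.span K (Set.range (mO K)))) := by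
    refine ⟨hli, Submodule.eq_of_le_of_finrank_eq (Submodule.span_le.2 ?_) ?_⟩
    · rintro _ ⟨i, rfl⟩
      exact hm i
    · rw [finrank_span_eq_card hli, Fintype.card_fin, hr]
  have h2 := h1.2 _ (PP_ideal _) _ hB
  rw [val_PP] at h2
  have h3 : (Matrix.of fun a b : Fin 5 => (![(hh K).smulRight (mO K 0), (hh K).smulRight (mO K 1),
      ps (mO K) 2 3, ps (mO K) 4 5] : Fin 4 → ((Fin 7 → K) →ₗ[K] (Fin 7 → K))) (ir a)
      (e K (jr b)) (lr a)) = (1 : Matrix (Fin 5) (Fin 5) K) := by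
    ext a b
    rw [Matrix.of_apply, Matrix.one_apply]
    fin_cases a <;> fin_cases b <;>
      simp [ir, lr, jr, ps_apply, cc_apply, mO, e, hh]
  rw [h3, Matrix.det_one] at h2
  exact one_ne_zero h2

end Pool.Agent.Helper37K9.CO
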