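import Pool.Agent.Helper37K9.CO.Base

set_option autoImplicit false

namespace Pool.Agent.Helper37K9.CO

open MvPolynomial

variable {K : Type} [Field K] {W : Type} [AddCommGroup W] [Module K W] {k : ℕ}

theorem exists_bas {L : Submodule K W} [FiniteDimensional K W] (h : Module.finrank K L = k) :
    ∃ m : Fin k → W, IsBas m L := by
  let b := Module.finBasisOfFinrankEq K L h
  refine ⟨fun i => (b i : W), b.linearIndependent.map' L.subtype (Submodule.ker_subtype L), ?_⟩
  have h1 : Set.range (fun i => (b i : W)) = L.subtype '' Set.range b := by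
    rw [← Set.range_comp]; rfl
  rw [h1, Submodule.span_image, b.span_eq, Submodule.map_top, Submodule.range_subtype]

/-- coordinates with respect to `m` -/
theorem exists_coord {m : Fin k → W} (h : LinearIndependent K m) :
    ∃ ρ : W →ₗ[K] (Fin k → K), ∀ c : Fin k → K, ρ (∑ i, c i • m i) = c := by
  have h1 : LinearMap.ker (Fintype.linearCombination K m) = ⊥ := by
    rw [LinearMap.ker_eq_bot']
    intro c hc
    rw [Fintype.linearCombination_apply] at hc
    exact funext fun i => Fintype.linearIndependent_iff.1 h c hc i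
  obtain ⟨ρ, hρ⟩ := LinearMap.exists_leftInverse_of_injective _ h1
  refine ⟨ρ, fun c => ?_⟩
  have := LinearMap.congr_fun hρ c
  rwa [LinearMap.comp_apply, Fintype.linearCombination_apply] at this

theorem mem_of_coord {m : Fin k → W} {L : Submodule K W} (hm : IsBas m L)
    {ρ : W →ₗ[K] (Fin k → K)} (hρ : ∀ c : Fin k → K, ρ (∑ i, c i • m i) = c) {x : W} (hx : x ∈ L) :
    x = ∑ i, ρ x i • m i := by
  rw [← hm.2] at hx
  obtain ⟨c, rfl⟩ := (Submodule.mem_span_range_iff_exists_fun K).1 hx
  rw [hρ]

/-- `tr (Ψ Φ)` for `Ψ = ∑ ξ_i ⊗ m_i` -/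
theorem trace_sum [FiniteDimensional K W] (ξ : Fin k → Module.Dual K W) (m : Fin k → W)
    (Φ : W →ₗ[K] W) :
    LinearMap.trace K W ((∑ i, (ξ i).smulRight (m i)) ∘ₗ Φ) = ∑ i, ξ i (Φ (m i)) := by
  have h1 : (∑ i, (ξ i).smulRight (m i)) ∘ₗ Φ = ∑ i, ((ξ i) ∘ₗ Φ).smulRight (m i) := by
    ext x
    simp only [LinearMap.comp_apply, LinearMap.sum_apply, LinearMap.smulRight_apply]
  rw [h1, map_sum]
  exact Finset.sum_congr rfl fun i _ => LinearMap.trace_smulRight _ _

/-- an element of `Hom(W / L, L)` given by functionals which vanish on `L` -/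
theorem sum_mem_cot {L : Submodule K W} {m : Fin k → W} (hm : IsBas m L)
    {ξ : Fin k → Module.Dual K W} (h : ∀ i, ∀ x ∈ L, ξ i x = 0) :
    (∑ i, (ξ i).smulRight (m i)) ∈ Cot L := by
  constructor
  · intro x hx
    rw [LinearMap.mem_ker, LinearMap.sum_apply]
    exact Finset.sum_eq_zero fun i _ => by rw [LinearMap.smulRight_apply, h i x hx, zero_smul]
  · rintro _ ⟨x, rfl⟩
    rw [LinearMap.sum_apply]
    refine Submodule.sum_mem _ fun i _ => ?_
    rw [LinearMap.smulRight_apply]
    refine L.smul_mem _ ?_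
    rw [← hm.2]
    exact Submodule.subset_span ⟨i, rfl⟩

theorem dl_single (m m' : Fin k → W) (F : Pol K W k) :
    ∑ i, dif m (Pi.single i (m' i)) F = dif m m' F := by
  have h1 : dl m F m' = dl m F (∑ i, Pi.single i (m' i)) := by rw [Finset.univ_sum_single]
  rw [← dl_apply, h1, map_sum]
  rfl

/-- the conormal vector of a polynomial which vanishes on `Z` -/
theorem conormal_mem [Infinite K] [FiniteDimensional K W] {Z : Set (Submodule K W)}
    {L : Submodule K W} (hL : L ∈ Z) {m : Fin k → W} (hm : IsBas m L) {F : Pol K W k}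
    (hF : F ∈ Ideal' k Z) :
    (∑ i, ((dl m F) ∘ₗ LinearMap.single K (fun _ => W) i).smulRight (m i)) ∈ Con k Z L := by
  refine ⟨sum_mem_cot hm fun i x hx => ?_, fun Φ hΦ => ?_⟩
  · refine dif_vert (hF L hL) hm _ fun j => ?_
    change (Pi.single i x : Fin k → W) j ∈ L
    by_cases h : j = i
    · subst h; rw [Pi.single_eq_same]; exact hx
    · rw [Pi.single_eq_of_ne h]; exact L.zero_mem
  · rw [trace_sum]
    rw [← hΦ F hF m hm]
    exact dl_single m (fun i => Φ (m i)) F

/-- **Semicontinuity** of the dimension of the conormal spaces. -/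
theorem semi [Infinite K] [FiniteDimensional K W] {Z X : Set (Submodule K W)} {r : ℕ}
    (hXZ : X ⊆ Z) (hX : ∀ L ∈ X, Module.finrank K (Con k Z L) ≤ r) {L : Submodule K W}
    (hL : L ∈ cl k X) : Module.finrank K (Con k Z L) ≤ r := by
  by_contra hcon
  have hr : r + 1 ≤ Module.finrank K (Con k Z L) := by omega
  obtain ⟨m, hm⟩ := exists_bas hL.1
  obtain ⟨ρ, hρ⟩ := exists_coord hm.1
  -- the map to the functionals
  let θ : (W →ₗ[K] W) →ₗ[K] ((Fin k → W) →ₗ[K] K) :=
    { toFun := fun Ψ => ∑ i, LinearMap.proj i ∘ₗ ρ ∘ₗ Ψ ∘ₗ LinearMap.proj i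
      map_add' := fun a b => by
        rw [← Finset.sum_add_distrib]
        refine Finset.sum_congr rfl fun i _ => ?_
        ext x; simp
      map_smul' := fun c a => by
        rw [RingHom.id_apply, Finset.smul_sum]
        refine Finset.sum_congr rfl fun i _ => ?_
        ext x; simp }
  have hθ : ∀ (Ψ : W →ₗ[K] W) (m' : Fin k → W), θ Ψ m' = ∑ i, ρ (Ψ (m' i)) i := by
    intro Ψ m'
    change (∑ i, LinearMap.proj i ∘ₗ ρ ∘ₗ Ψ ∘ₗ LinearMap.proj i) m' = _
    rw [LinearMap.sum_apply]
    rfl
  let J : Submodule K (Module.Dual K (Fin k → W)) := Submodule.span K (dl m '' Ideal' k Z)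
  have hJ : ∀ Ψ ∈ Con k Z L, θ Ψ ∈ J := by
    intro Ψ hΨ
    rw [← Subspace.dualCoannihilator_dualAnnihilator_eq (W := J), Submodule.mem_dualAnnihilator]
    intro m' hm'
    rw [Submodule.mem_dualCoannihilator] at hm'
    -- the endomorphism with `m i ↦ m' i`
    let Φ : W →ₗ[K] W := ∑ i, (LinearMap.proj i ∘ₗ ρ).smulRight (m' i)
    have hΦm : ∀ i, Φ (m i) = m' i := by
      intro i
      have h1 : ρ (m i) = Pi.single i 1 := by
        have := hρ (Pi.single i 1)
        rwa [Finset.sum_eq_single i, Pi.single_eq_same, one_smul] at this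
        · intro j _ hj; rw [Pi.single_eq_of_ne hj, zero_smul]
        · intro h; exact absurd (Finset.mem_univ i) h
      change (∑ j, (LinearMap.proj j ∘ₗ ρ).smulRight (m' j)) (m i) = _
      rw [LinearMap.sum_apply, Finset.sum_eq_single i]
      · rw [LinearMap.smulRight_apply, LinearMap.comp_apply, LinearMap.proj_apply, h1,
          Pi.single_eq_same, one_smul]
      · intro j _ hj
        rw [LinearMap.smulRight_apply, LinearMap.comp_apply, LinearMap.proj_apply, h1,
          Pi.single_eq_of_ne hj, zero_smul]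
      · intro h; exact absurd (Finset.mem_univ i) h
    have hΦ : Φ ∈ Tan k Z L := by
      refine mem_tan hm fun F hF => ?_
      rw [funext hΦm]
      exact hm' _ (Submodule.subset_span ⟨F, hF, rfl⟩)
    have h2 := hΨ.2 Φ hΦ
    rw [hθ]
    have h3 : Ψ ∘ₗ Φ = ∑ i, (LinearMap.proj i ∘ₗ ρ).smulRight (Ψ (m' i)) := by
      ext x
      change Ψ ((∑ j, (LinearMap.proj j ∘ₗ ρ).smulRight (m' j)) x) = _
      simp only [LinearMap.sum_apply, LinearMap.smulRight_apply, map_sum, map_smul]
    rw [h3, map_sum] at h2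
    rw [← h2]
    refine Finset.sum_congr rfl fun i _ => ?_
    rw [LinearMap.trace_smulRight]
    rfl
  let f : Con k Z L →ₗ[K] J := (θ ∘ₗ (Con k Z L).subtype).codRestrict J fun x => hJ _ x.2
  have hf : Function.Injective f := by
    refine (injective_iff_map_eq_zero f).2 ?_
    rintro ⟨Ψ, hΨ⟩ h0
    have h1 : θ Ψ = 0 := congrArg Subtype.val h0
    refine Subtype.ext (LinearMap.ext fun x => ?_)
    have hx : Ψ x ∈ L := hΨ.1.2 ⟨x, rfl⟩
    rw [Submodule.coe_zero, LinearMap.zero_apply, mem_of_coord hm hρ hx]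
    refine Finset.sum_eq_zero fun i _ => ?_
    have h2 := LinearMap.congr_fun h1 (Pi.single i x)
    rw [hθ, LinearMap.zero_apply, Finset.sum_eq_single i] at h2
    · rw [Pi.single_eq_same] at h2
      rw [h2, zero_smul]
    · intro j _ hj; rw [Pi.single_eq_of_ne hj, map_zero, map_zero]; rfl
    · intro h; exact absurd (Finset.mem_univ i) h
  have hJr : r + 1 ≤ Module.finrank K J := hr.trans (LinearMap.finrank_le_finrank_of_injective hf)
  -- independent differentials
  obtain ⟨F, hF, hli⟩ : ∃ F : Fin (r + 1) → Pol K W k, (∀ i, F i ∈ Ideal' k Z) ∧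
      LinearIndependent K (fun i => dl m (F i)) := by
    obtain ⟨b, hb, hspan, hb2⟩ := exists_linearIndependent K (dl m '' Ideal' k Z)
    have hfin : Finite b := hb2.finite
    have hc : r + 1 ≤ Nat.card b := by
      have : Fintype b := Fintype.ofFinite b
      rw [Nat.card_eq_fintype_card, ← Set.toFinset_card, ← finrank_span_set_eq_card hb2, hspan]
      exact hJr
    have : Fintype b := Fintype.ofFinite b
    rw [Nat.card_eq_fintype_card] at hc
    obtain ⟨e⟩ := Function.Embedding.nonempty_of_card_le (α := Fin (r + 1)) (β := b)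
      (by rw [Fintype.card_fin]; exact hc)
    choose F hF hF2 using fun i => hb (e i).2
    refine ⟨F, hF, ?_⟩
    rw [funext hF2]
    exact hb2.comp e e.injective
  -- dual vectors
  obtain ⟨w, hw⟩ : ∃ w : Fin (r + 1) → Fin k → W, ∀ i j, dif m (w j) (F i) = if i = j then 1 else 0 := by
    let P : (Fin k → W) →ₗ[K] (Fin (r + 1) → K) := LinearMap.pi fun i => dl m (F i)
    have hP : LinearMap.range P = ⊤ := by
      by_contra hne
      obtain ⟨g, hg0, hg⟩ := Submodule.exists_le_ker_of_lt_top _ (lt_top_iff_ne_top.2 hne)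
      refine hg0 (LinearMap.ext fun x => ?_)
      have h1 : ∀ i, g (Pi.single i 1) = 0 := by
        refine Fintype.linearIndependent_iff.1 hli _ (LinearMap.ext fun y => ?_)
        have h2 : g (P y) = 0 := hg ⟨y, rfl⟩
        have h4 : g (P y) = g (∑ i, Pi.single i (P y i)) := by rw [Finset.univ_sum_single]
        rw [LinearMap.zero_apply, ← h2, h4, map_sum, LinearMap.sum_apply]
        refine Finset.sum_congr rfl fun i _ => ?_
        have h3 : (Pi.single i (P y i) : Fin (r + 1) → K) = P y i • Pi.single i 1 := by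
          rw [← Pi.single_smul, smul_eq_mul, mul_one]
        rw [LinearMap.smul_apply, smul_eq_mul, h3, map_smul, smul_eq_mul, mul_comm]
        rfl
      have h4 : g x = g (∑ i, Pi.single i (x i)) := by rw [Finset.univ_sum_single]
      rw [h4, map_sum, LinearMap.zero_apply]
      refine Finset.sum_eq_zero fun i _ => ?_
      have h3 : (Pi.single i (x i) : Fin (r + 1) → K) = x i • Pi.single i 1 := by
        rw [← Pi.single_smul, smul_eq_mul, mul_one]
      rw [h3, map_smul, h1, smul_zero]
    have h2 : ∀ j, ∃ w, P w = Pi.single j 1 := fun j => by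
      have : (Pi.single j 1 : Fin (r + 1) → K) ∈ LinearMap.range P := by rw [hP]; trivial
      exact this
    choose w hw using h2
    refine ⟨w, fun i j => ?_⟩
    have := congrFun (hw j) i
    rw [Pi.single_apply] at this
    exact this
  -- the minor
  let G : Pol K W k := (Matrix.of fun i j : Fin (r + 1) =>
    (mkDerivation K (fun x : Fin k × Module.Dual K W => (C (x.2 (w j x.1)) : Pol K W k)) (F i))).det
  have hG : ∀ m₀ : Fin k → W, val m₀ G = (Matrix.of fun i j => dif m₀ (w j) (F i)).det := by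
    intro m₀
    have : val m₀ G = (eval (fun x : Fin k × Module.Dual K W => x.2 (m₀ x.1))) G := rfl
    rw [this, RingHom.map_det]
    rfl
  have hGm : val m G = 1 := by
    rw [hG]
    have : (Matrix.of fun i j => dif m (w j) (F i)) = (1 : Matrix (Fin (r + 1)) (Fin (r + 1)) K) := by
      ext i j
      rw [Matrix.of_apply, hw, Matrix.one_apply]
    rw [this, Matrix.det_one]
  have hGX : ¬ ∀ L₀ ∈ X, Van G L₀ := fun h => by
    have := hL.2 G h m hm
    rw [hGm] at this
    exact one_ne_zero this
  simp only [not_forall, Van] at hGX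
  obtain ⟨L₀, hL₀, m₀, hm₀, hne⟩ := hGX
  rw [hG] at hne
  -- independent conormal vectors at `L₀`
  let Ψ : Fin (r + 1) → Con k Z L₀ := fun i => ⟨_, conormal_mem (hXZ hL₀) hm₀ (hF i)⟩
  have hΨ : LinearIndependent K Ψ := by
    rw [Fintype.linearIndependent_iff]
    intro c hc
    have h1 : ∀ x : W, ∀ l : Fin k, ∑ i, c i * dif m₀ (Pi.single l x) (F i) = 0 := by
      intro x
      have h2 : (∑ i, c i • Ψ i : Con k Z L₀).1 x = 0 := by rw [hc]; rfl
      rw [Submodule.coe_sum, LinearMap.sum_apply] at h2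
      have h3 : ∑ l, (∑ i, c i * dif m₀ (Pi.single l x) (F i)) • m₀ l = 0 := by
        rw [← h2]
        simp only [Finset.sum_smul]
        rw [Finset.sum_comm]
        refine Finset.sum_congr rfl fun i _ => ?_
        rw [Submodule.coe_smul, LinearMap.smul_apply]
        change _ = c i • (∑ l, ((dl m₀ (F i)) ∘ₗ LinearMap.single K (fun _ => W) l).smulRight (m₀ l)) x
        rw [LinearMap.sum_apply, Finset.smul_sum]
        refine Finset.sum_congr rfl fun l _ => ?_
        rw [LinearMap.smulRight_apply, smul_smul]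
        rfl
      exact fun l => Fintype.linearIndependent_iff.1 hm₀.1 _ h3 l
    have h4 : ∀ j, ∑ i, c i * dif m₀ (w j) (F i) = 0 := by
      intro j
      have h5 : ∀ i, dif m₀ (w j) (F i) = ∑ l, dif m₀ (Pi.single l (w j l)) (F i) := fun i =>
        (dl_single m₀ (w j) (F i)).symm
      simp only [h5, Finset.mul_sum]
      rw [Finset.sum_comm]
      exact Finset.sum_eq_zero fun l _ => h1 (w j l) l
    have h6 : Matrix.vecMul c (Matrix.of fun i j => dif m₀ (w j) (F i)) = 0 := funext fun j => h4 j
    exact fun i => congrFun (Matrix.eq_zero_of_vecMul_eq_zero hne h6) i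
  have h7 := hΨ.fintype_card_le_finrank
  rw [Fintype.card_fin] at h7
  have := hX L₀ hL₀
  omega

end Pool.Agent.Helper37K9.CO
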